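import Pool.Agent.LibHag.Linkage

/-!
# Fans with prescribed ends in a graph

`v` is a vertex, `I0` the set of free inner vertices, `T` a finite type of targets, `tv y` the vertex
of the target `y`. A stem of `y` is a list `l` of vertices of `I0` such that `v :: l ++ [tv y]` is a
walk.
-/

set_option autoImplicit false

open Finset

namespace Pool.Agent.Hag

theorem split_unique {α : Type} (L l1 l2 : List α) (q p : α) (m1 m2 : List α) (p' : α)
    (hnd : L.Nodup) (h1 : L = l1 ++ q :: p :: l2) (h2 : L = m1 ++ q :: p' :: m2) : p = p' := by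
  classical
  have h3 : l1 ++ q :: p :: l2 = m1 ++ q :: p' :: m2 := h1.symm.trans h2
  have hq1 : q ∉ l1 := by
    rw [h1, List.nodup_append] at hnd
    intro hm
    exact hnd.2.2 q hm q (by simp) rfl
  have hq2 : q ∉ m1 := by
    rw [h2, List.nodup_append] at hnd
    intro hm
    exact hnd.2.2 q hm q (by simp) rfl
  have hlen : l1.length = m1.length := by
    have e1 : List.idxOf q (l1 ++ q :: p :: l2) = l1.length := by
      rw [List.idxOf_append_of_notMem hq1]; simp
    have e2 : List.idxOf q (m1 ++ q :: p' :: m2) = m1.length := by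
      rw [List.idxOf_append_of_notMem hq2]; simp
    rw [← e1, ← e2, h3]
  have h4 := List.append_inj h3 hlen
  have h5 := (List.cons.inj h4.2).2
  exact (List.cons.inj h5).1

variable {U : Type} [Fintype U] [DecidableEq U]

/-- `l` is a stem from `v` to the vertex `z` with inner vertices in `I0`. -/
structure IsStem (G : SimpleGraph U) (I0 : Finset U) (v z : U) (l : List U) : Prop where
  mem : ∀ w ∈ l, w ∈ I0
  nodup : l.Nodup
  chain : (v :: l ++ [z]).IsChain G.Adj

theorem fan (G : SimpleGraph U) (I0 : Finset U) (v : U) {T : Type} [Fintype T] [DecidableEq T]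
    (tv : T → U) (Used : Finset T) (stem0 : T → List U)
    (hst : ∀ y ∈ Used, IsStem G I0 v (tv y) (stem0 y))
    (hdis : ∀ y ∈ Used, ∀ y' ∈ Used, y ≠ y' → List.Disjoint (stem0 y) (stem0 y')) (n : ℕ)
    (hsep : ∀ (X : Finset U) (Z : Finset T), X.card + Z.card < n → ∃ y ∉ Z, ∃ l : List U,
      (∀ w ∈ l, w ∈ I0 ∧ w ∉ X) ∧ (v :: l ++ [tv y]).IsChain G.Adj) :
    ∃ (Y : Finset T) (stem : T → List U), Used ⊆ Y ∧ n ≤ Y.card ∧
      (∀ y ∈ Y, IsStem G I0 v (tv y) (stem y)) ∧
      (∀ y ∈ Y, ∀ y' ∈ Y, y ≠ y' → List.Disjoint (stem y) (stem y')) := by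
  classical
  let E : U ⊕ T → U ⊕ T → Prop := fun p q =>
    match p, q with
    | Sum.inl a, Sum.inl b => a ∈ I0 ∧ b ∈ I0 ∧ G.Adj a b
    | Sum.inl a, Sum.inr y => a ∈ I0 ∧ G.Adj a (tv y)
    | Sum.inr _, _ => False
  let S : Finset (U ⊕ T) := univ.filter (fun p =>
    match p with
    | Sum.inl a => a ∈ I0 ∧ G.Adj v a
    | Sum.inr y => G.Adj v (tv y))
  let H : Finset (U ⊕ T) := univ.filter (fun p =>
    match p with
    | Sum.inl _ => False
    | Sum.inr _ => True)
  have hSl : ∀ a, Sum.inl a ∈ S ↔ a ∈ I0 ∧ G.Adj v a := by intro a; simp [S]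
  have hSr : ∀ y, Sum.inr y ∈ S ↔ G.Adj v (tv y) := by intro a; simp [S]
  have hHl : ∀ a, Sum.inl a ∉ H := by intro a; simp [H]
  have hHr : ∀ y, Sum.inr y ∈ H := by intro a; simp [H]
  set U0 : Finset (U ⊕ T) := Used.image Sum.inr with hU0
  have hU : U0 ⊆ H := by
    intro p hp
    rw [hU0, Finset.mem_image] at hp
    obtain ⟨y, _, rfl⟩ := hp
    exact hHr y
  -- separation
  have hsep' : ∀ L R : Finset (U ⊕ T), Disjoint L S → L ⊆ R → H ⊆ R →
      (∀ p ∈ L, ∀ q, E q p → q ∈ R) → n ≤ (R \ L).card := by
    intro L R hLS hLR hHR hcl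
    by_contra hlt
    push Not at hlt
    set X : Finset U := (R \ L).toLeft with hX
    set Z : Finset T := (R \ L).toRight with hZ
    have hXZ : X.card + Z.card < n := by
      rw [hX, hZ, Finset.card_toLeft_add_card_toRight]; exact hlt
    obtain ⟨y, hyZ, l, hl, hch⟩ := hsep X Z hXZ
    have hyL : Sum.inr y ∈ L := by
      by_contra h
      apply hyZ
      rw [hZ, Finset.mem_toRight, Finset.mem_sdiff]
      exact ⟨hHR (hHr y), h⟩
    have main : ∀ (l : List U) (p : U ⊕ T) (z : U), p ∈ L →
        (∀ a ∈ I0, G.Adj a z → E (Sum.inl a) p) → (G.Adj v z → p ∈ S) →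
        (∀ w ∈ l, w ∈ I0 ∧ w ∉ X) → (v :: l ++ [z]).IsChain G.Adj → False := by
      intro l
      induction l using List.reverseRecOn with
      | nil =>
        intro p z hp _ h2 _ hc
        have : G.Adj v z := by simpa using hc
        exact (Finset.disjoint_left.1 hLS hp) (h2 this)
      | append_singleton l a ih =>
        intro p z hp h1 _ hw hc
        have haI := hw a (by simp)
        have hadj : G.Adj a z := by
          have : (v :: l ++ a :: z :: []).IsChain G.Adj := by simpa using hc
          rw [List.isChain_append_cons_cons] at this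
          exact this.2.1
        have haR : (Sum.inl a : U ⊕ T) ∈ R := hcl p hp _ (h1 a haI.1 hadj)
        have haL : (Sum.inl a : U ⊕ T) ∈ L := by
          by_contra h
          apply haI.2
          rw [hX, Finset.mem_toLeft, Finset.mem_sdiff]
          exact ⟨haR, h⟩
        refine ih (Sum.inl a) a haL ?_ ?_ (fun w hw' => hw w (by simp [hw'])) ?_
        · intro b hb hba
          exact ⟨hb, haI.1, hba⟩
        · intro hva
          rw [hSl]; exact ⟨haI.1, hva⟩
        · have : (v :: l ++ a :: z :: []).IsChain G.Adj := by simpa using hc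
          rw [List.isChain_append_cons_cons] at this
          exact this.1
    exact main l (Sum.inr y) (tv y) hyL (fun a ha h => ⟨ha, h⟩) (fun h => (hSr y).2 h) hl hch
  -- the map `φ0` of the given stems
  let path0 : T → List (U ⊕ T) := fun y => (stem0 y).map Sum.inl ++ [Sum.inr y]
  have hnd0 : ∀ y ∈ Used, (path0 y).Nodup := by
    intro y hy
    simp only [path0]
    rw [List.nodup_append]
    refine ⟨(hst y hy).nodup.map Sum.inl_injective, List.nodup_singleton _, ?_⟩
    intro a ha b hb
    rw [List.mem_map] at ha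
    obtain ⟨w, _, rfl⟩ := ha
    simp at hb
    subst hb
    simp
  have hdis0 : ∀ y ∈ Used, ∀ y' ∈ Used, ∀ p, p ∈ path0 y → p ∈ path0 y' → y = y' := by
    intro y hy y' hy' p hp hp'
    by_contra hne
    simp only [path0, List.mem_append, List.mem_map, List.mem_singleton] at hp hp'
    rcases hp with ⟨w, hw, rfl⟩ | rfl
    · rcases hp' with ⟨w', hw', h⟩ | h
      · have : w' = w := by simpa using h
        subst this
        exact hdis y hy y' hy' hne hw hw'
      · simp at h
    · rcases hp' with ⟨w', hw', h⟩ | h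
      · simp at h
      · exact hne (by simpa using h)
  -- chain
  have hch0 : ∀ y ∈ Used, (path0 y).IsChain E := by
    intro y hy
    have hs := hst y hy
    rw [List.isChain_iff_forall_rel_of_append_cons_cons]
    intro p q l1 l2 h
    simp only [path0] at h
    rcases List.eq_nil_or_concat l2 with h2 | ⟨l2', z, h2⟩
    · subst h2
      have h3 : l1 ++ [p] ++ [q] = (stem0 y).map Sum.inl ++ [Sum.inr y] := by simpa using h.symm
      have h4 := List.append_inj' h3 rfl
      have hq : q = Sum.inr y := by simpa using h4.2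
      have h5 : (stem0 y).map Sum.inl = l1 ++ [p] := h4.1.symm
      rw [List.map_eq_append_iff] at h5
      obtain ⟨m1, m2, hm, hm1, hm2⟩ := h5
      rw [List.map_eq_singleton_iff] at hm2
      obtain ⟨a, rfl, rfl⟩ := hm2
      subst hq
      refine ⟨hs.mem a (by rw [hm]; simp), ?_⟩
      have hc := hs.chain
      rw [hm] at hc
      have : (v :: m1 ++ a :: tv y :: []).IsChain G.Adj := by simpa using hc
      rw [List.isChain_append_cons_cons] at this
      exact this.2.1
    · subst h2
      have h3 : (l1 ++ p :: q :: l2') ++ [z] = (stem0 y).map Sum.inl ++ [Sum.inr y] := by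
        simpa using h.symm
      have h4 := List.append_inj' h3 rfl
      have h5 : (stem0 y).map Sum.inl = l1 ++ p :: q :: l2' := h4.1.symm
      rw [List.map_eq_append_iff] at h5
      obtain ⟨m1, m2, hm, hm1, hm2⟩ := h5
      rw [List.map_eq_cons_iff] at hm2
      obtain ⟨a, m3, rfl, rfl, hm3⟩ := hm2
      rw [List.map_eq_cons_iff] at hm3
      obtain ⟨b, m4, rfl, rfl, hm4⟩ := hm3
      refine ⟨hs.mem a (by rw [hm]; simp), hs.mem b (by rw [hm]; simp), ?_⟩
      have hc := hs.chain
      rw [hm] at hc
      have : (v :: m1 ++ a :: b :: (m4 ++ [tv y])).IsChain G.Adj := by simpa using hc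
      rw [List.isChain_append_cons_cons] at this
      exact this.2.1
  -- a vertex of a path which is not the first one has a predecessor
  have hfirst : ∀ y ∈ Used, ∀ p ∈ path0 y, p ∉ S → ∃ q l1 l2, path0 y = l1 ++ q :: p :: l2 := by
    intro y hy p hp hpS
    obtain ⟨l1, l2, hl⟩ := List.append_of_mem hp
    rcases List.eq_nil_or_concat l1 with h1 | ⟨l1', q, h1⟩
    · exfalso
      subst h1
      apply hpS
      have hs := hst y hy
      rcases hl' : stem0 y with _ | ⟨a, m⟩
      · simp only [path0, hl', List.map_nil, List.nil_append] at hl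
        have : p = Sum.inr y := by
          have := (List.cons.inj hl).1; exact this.symm
        subst this
        rw [hSr]
        have hc := hs.chain
        rw [hl'] at hc
        simpa using hc
      · simp only [path0, hl', List.map_cons, List.cons_append, List.nil_append] at hl
        have : p = Sum.inl a := (List.cons.inj hl).1.symm
        subst this
        rw [hSl]
        have hc := hs.chain
        rw [hl'] at hc
        refine ⟨hs.mem a (by rw [hl']; simp), ?_⟩
        rw [List.cons_append, List.cons_append, List.isChain_cons_cons] at hc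
        exact hc.1
    · refine ⟨q, l1', l2, ?_⟩
      rw [hl, h1]; simp
  let Pr : U ⊕ T → U ⊕ T → Prop := fun p q => ∃ y ∈ Used, ∃ l1 l2, path0 y = l1 ++ q :: p :: l2
  have hPmem : ∀ p q y l1 l2, path0 y = l1 ++ q :: p :: l2 → p ∈ path0 y ∧ q ∈ path0 y := by
    intro p q y l1 l2 h
    rw [h]; simp
  let φ0 : U ⊕ T → U ⊕ T := fun p => if h : ∃ q, Pr p q then h.choose else p
  have hφ1 : ∀ p, (∃ q, Pr p q) → Pr p (φ0 p) := by
    intro p h
    simp only [φ0]; rw [dif_pos h]; exact h.choose_spec
  have hφ2 : ∀ p, ¬ (∃ q, Pr p q) → φ0 p = p := by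
    intro p h
    simp only [φ0]; rw [dif_neg h]
  have h0 : ∀ p ∉ S, ∀ q ∉ S, φ0 p = φ0 q → p = q := by
    intro p hp q hq h
    by_cases h1 : ∃ r, Pr p r
    · by_cases h2 : ∃ r, Pr q r
      · obtain ⟨y, hy, l1, l2, e1⟩ := hφ1 p h1
        obtain ⟨y', hy', m1, m2, e2⟩ := hφ1 q h2
        rw [h] at e1
        have : y = y' := hdis0 y hy y' hy' _ (hPmem _ _ _ _ _ e1).2 (hPmem _ _ _ _ _ e2).2
        subst this
        exact split_unique _ _ _ _ _ _ _ _ (hnd0 y hy) e1 e2
      · exfalso
        obtain ⟨y, hy, l1, l2, e1⟩ := hφ1 p h1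
        rw [h, hφ2 q h2] at e1
        obtain ⟨r, m1, m2, e2⟩ := hfirst y hy q (hPmem _ _ _ _ _ e1).2 hq
        exact h2 ⟨r, y, hy, m1, m2, e2⟩
    · by_cases h2 : ∃ r, Pr q r
      · exfalso
        obtain ⟨y, hy, l1, l2, e1⟩ := hφ1 q h2
        rw [← h, hφ2 p h1] at e1
        obtain ⟨r, m1, m2, e2⟩ := hfirst y hy p (hPmem _ _ _ _ _ e1).2 hp
        exact h1 ⟨r, y, hy, m1, m2, e2⟩
      · rw [hφ2 p h1, hφ2 q h2] at h; exact h
  have h0E : ∀ p ∉ S, φ0 p = p ∨ E (φ0 p) p := by
    intro p _
    by_cases h1 : ∃ r, Pr p r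
    · right
      obtain ⟨y, hy, l1, l2, e1⟩ := hφ1 p h1
      have := hch0 y hy
      rw [e1, List.isChain_append_cons_cons] at this
      exact this.2.1
    · left; exact hφ2 p h1
  have h0U : ∀ p ∉ S, φ0 p ∉ U0 := by
    intro p hp hmem
    rw [hU0, Finset.mem_image] at hmem
    obtain ⟨y', hy', hyy⟩ := hmem
    by_cases h1 : ∃ r, Pr p r
    · obtain ⟨y, hy, l1, l2, e1⟩ := hφ1 p h1
      have := hch0 y hy
      rw [e1, List.isChain_append_cons_cons, ← hyy] at this
      exact this.2.1
    · rw [hφ2 p h1] at hyy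
      subst hyy
      obtain ⟨r, m1, m2, e2⟩ := hfirst y' hy' (Sum.inr y') (by simp [path0]) hp
      exact h1 ⟨r, y', hy', m1, m2, e2⟩
  obtain ⟨φ, Y, hUY, hYH, hcard, hφinj, hφE, hφY⟩ :=
    hall_linkage E S H U0 hU n hsep' φ0 h0 h0E h0U
  obtain ⟨path, hpath, hpdis⟩ := extract E S Y φ hφinj hφE hφY
  have hYr : ∀ p ∈ Y, ∃ y, p = Sum.inr y := by
    intro p hp
    rcases p with a | y
    · exact absurd (hYH hp) (hHl a)
    · exact ⟨y, rfl⟩
  have hYl : Y.toLeft = ∅ := by
    rw [Finset.eq_empty_iff_forall_notMem]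
    intro a ha
    rw [Finset.mem_toLeft] at ha
    exact hHl a (hYH ha)
  -- inner elements of the paths are `inl`
  have hinl : ∀ p ∈ Y, ∀ q ∈ path p, ∃ a, q = Sum.inl a := by
    intro p hp q hq
    obtain ⟨l1, l2, hl⟩ := List.append_of_mem hq
    have hc := (hpath p hp).2.1
    rcases q with a | y
    · exact ⟨a, rfl⟩
    · exfalso
      rcases l2 with _ | ⟨b, l2⟩
      · rw [hl] at hc
        have : (l1 ++ Sum.inr y :: p :: []).IsChain E := by simpa using hc
        rw [List.isChain_append_cons_cons] at this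
        exact this.2.1
      · rw [hl] at hc
        have : (l1 ++ Sum.inr y :: b :: (l2 ++ [p])).IsChain E := by simpa using hc
        rw [List.isChain_append_cons_cons] at this
        exact this.2.1
  let pr : U ⊕ T → U := fun p => match p with
    | Sum.inl a => a
    | Sum.inr y => tv y
  have hmap : ∀ y, Sum.inr y ∈ Y → (path (Sum.inr y)).map (fun p => (Sum.inl (pr p) : U ⊕ T)) =
      path (Sum.inr y) := by
    intro y hy
    conv_rhs => rw [← List.map_id (path (Sum.inr y))]
    refine List.map_congr_left fun q hq => ?_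
    obtain ⟨a, rfl⟩ := hinl _ hy q hq
    rfl
  refine ⟨Y.toRight, fun y => (path (Sum.inr y)).map pr, ?_, ?_, ?_, ?_⟩
  · intro y hy
    rw [Finset.mem_toRight]
    exact hUY (Finset.mem_image_of_mem _ hy)
  · have := Finset.card_toLeft_add_card_toRight (u := Y)
    rw [hYl, Finset.card_empty] at this
    omega
  · intro y hy
    rw [Finset.mem_toRight] at hy
    obtain ⟨⟨s, hs, hhead⟩, hc, hnd, _⟩ := hpath _ hy
    have hEadj : ∀ p q, E p q → G.Adj (pr p) (pr q) := by
      intro p q h
      rcases p with a | a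
      · rcases q with b | b
        · exact h.2.2
        · exact h.2
      · exact h.elim
    have hSadj : ∀ p ∈ S, G.Adj v (pr p) := by
      intro p hp
      rcases p with a | a
      · exact ((hSl a).1 hp).2
      · exact (hSr a).1 hp
    have hend : ((path (Sum.inr y)) ++ [Sum.inr y]).map pr =
        (path (Sum.inr y)).map pr ++ [tv y] := by simp [pr]
    refine ⟨?_, ?_, ?_⟩
    · intro w hw
      rw [List.mem_map] at hw
      obtain ⟨q, hq, rfl⟩ := hw
      obtain ⟨a, rfl⟩ := hinl _ hy q hq
      -- every inner element is in `I0`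
      obtain ⟨l1, l2, hl⟩ := List.append_of_mem hq
      rw [hl] at hc
      rcases l2 with _ | ⟨b, l2⟩
      · have : (l1 ++ Sum.inl a :: Sum.inr y :: []).IsChain E := by simpa using hc
        rw [List.isChain_append_cons_cons] at this
        exact this.2.1.1
      · have : (l1 ++ Sum.inl a :: b :: (l2 ++ [Sum.inr y])).IsChain E := by simpa using hc
        rw [List.isChain_append_cons_cons] at this
        rcases b with b | b
        · exact this.2.1.1
        · exact this.2.1.1
    · rw [List.nodup_append] at hnd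
      refine List.Nodup.map_on ?_ hnd.1
      intro p hp q hq h
      obtain ⟨a, rfl⟩ := hinl _ hy p hp
      obtain ⟨b, rfl⟩ := hinl _ hy q hq
      have : a = b := h
      rw [this]
    · rw [List.cons_append, ← hend, List.isChain_cons]
      refine ⟨?_, ?_⟩
      · intro z hz
        rw [List.head?_map, hhead] at hz
        simp at hz
        subst hz
        exact hSadj s hs
      · rw [List.isChain_map]
        exact hc.imp (fun p q h => hEadj p q h)
  · intro y hy y' hy' hne w hw hw'
    rw [Finset.mem_toRight] at hy hy'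
    have h1 : (Sum.inl w : U ⊕ T) ∈ path (Sum.inr y) := by
      rw [← hmap y hy]
      rw [List.mem_map] at hw ⊢
      obtain ⟨q, hq, rfl⟩ := hw
      exact ⟨q, hq, rfl⟩
    have h2 : (Sum.inl w : U ⊕ T) ∈ path (Sum.inr y') := by
      rw [← hmap y' hy']
      rw [List.mem_map] at hw' ⊢
      obtain ⟨q, hq, rfl⟩ := hw'
      exact ⟨q, hq, rfl⟩
    have h3 := hpdis _ hy _ hy' (by simpa using hne)
    exact h3 (a := Sum.inl w) (by simp [h1]) (by simp [h2])

end Pool.Agent.Hag
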