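import Pool.Agent.LibHag.Game

/-!
# Five terminals
-/

set_option autoImplicit false

open Finset

namespace Pool.Agent.Hag

variable {U : Type} [DecidableEq U]

omit [DecidableEq U] in
theorem map_eq_sum {ι α : Type} [Fintype ι] (f : ι → α) :
    (Finset.univ : Finset ι).val.map f = ∑ i, ({f i} : Multiset α) := by
  have h : ∑ i, ({f i} : Multiset α) =
      (((Finset.univ : Finset ι).val.map f).map (fun a => ({a} : Multiset α))).sum := by
    rw [Multiset.map_map]; rfl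
  rw [h, Multiset.sum_map_singleton]

/-- The pairs of consecutive terminals of a Hamiltonian order. -/
def pathM {U : Type} {n : ℕ} (h : Fin (n + 1) → U) : Multiset (Sym2 U) :=
  ∑ j : Fin n, {s(h j.castSucc, h j.succ)}

omit [DecidableEq U] in
theorem decomp_iff {A : Finset U} {k n : ℕ} {M : Multiset (Sym2 U)} :
    Decomp A k n M ↔ ∃ h : Fin k → Fin (n + 1) → U, (∀ i, Function.Injective (h i)) ∧
      (∀ i j, h i j ∈ A) ∧ (∀ i, ∀ a ∈ A, ∃ j, h i j = a) ∧ M = ∑ i, pathM (h i) := by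
  unfold Decomp pathM
  constructor
  · rintro ⟨h, h1, h2, h3, h4⟩
    refine ⟨h, h1, h2, h3, ?_⟩
    rw [h4, map_eq_sum, Fintype.sum_prod_type]
  · rintro ⟨h, h1, h2, h3, h4⟩
    refine ⟨h, h1, h2, h3, ?_⟩
    rw [h4, map_eq_sum, Fintype.sum_prod_type]

omit [DecidableEq U] in
theorem Decomp.add {A : Finset U} {k k' n : ℕ} {M M' : Multiset (Sym2 U)}
    (h : Decomp A k n M) (h' : Decomp A k' n M') : Decomp A (k + k') n (M + M') := by
  rw [decomp_iff] at h h' ⊢
  obtain ⟨f, f1, f2, f3, rfl⟩ := h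
  obtain ⟨g, g1, g2, g3, rfl⟩ := h'
  refine ⟨Fin.append f g, ?_, ?_, ?_, ?_⟩
  · intro i
    refine Fin.addCases (fun i => ?_) (fun i => ?_) i
    · rw [Fin.append_left]; exact f1 i
    · rw [Fin.append_right]; exact g1 i
  · intro i
    refine Fin.addCases (fun i => ?_) (fun i => ?_) i
    · rw [Fin.append_left]; exact f2 i
    · rw [Fin.append_right]; exact g2 i
  · intro i
    refine Fin.addCases (fun i => ?_) (fun i => ?_) i
    · rw [Fin.append_left]; exact f3 i
    · rw [Fin.append_right]; exact g3 i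
  · rw [Fin.sum_univ_add]
    simp only [Fin.append_left, Fin.append_right]

omit [DecidableEq U] in
theorem Decomp.single {A : Finset U} {n : ℕ} (h : Fin (n + 1) → U) (h1 : Function.Injective h)
    (h2 : ∀ j, h j ∈ A) (h3 : ∀ a ∈ A, ∃ j, h j = a) (m : ℕ) : Decomp A m n (m • pathM h) := by
  rw [decomp_iff]
  refine ⟨fun _ => h, fun _ => h1, fun _ => h2, fun _ => h3, ?_⟩
  rw [Finset.sum_const, Finset.card_univ, Fintype.card_fin]

/-- Submultisets of a sum of two multisets. -/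
theorem le_add_split {α : Type} [DecidableEq α] {y P Q : Multiset α} (h : y ≤ P + Q) :
    ∃ y1 y2, y1 ≤ P ∧ y2 ≤ Q ∧ y = y1 + y2 := by
  refine ⟨y ∩ P, y - P, Multiset.inter_le_right, ?_, ?_⟩
  · rw [tsub_le_iff_right, add_comm]; exact h
  · rw [add_comm]; exact (Multiset.sub_add_inter y P).symm

theorem le_nsmul_single {α : Type} [DecidableEq α] {y : Multiset α} {n : ℕ} {e : α}
    (h : y ≤ n • {e}) : ∃ x ≤ n, y = x • {e} := by
  rw [Multiset.nsmul_singleton, Multiset.le_replicate_iff] at h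
  obtain ⟨x, hx, rfl⟩ := h
  exact ⟨x, hx, (Multiset.nsmul_singleton _ _).symm⟩

omit [DecidableEq U] in
theorem pins_smul (v : U) (n : ℕ) (u w : U) :
    pins v (n • {s(u, w)}) = n • ({s(u, v)} + {s(w, v)}) := by
  rw [Multiset.nsmul_singleton, pins_nsmul, pin_mk]; rfl

omit [DecidableEq U] in
theorem inj5 {a u v w b : U} (h0 : a ≠ b) (h1 : a ≠ u) (h2 : a ≠ v) (h3 : a ≠ w) (h4 : b ≠ u)
    (h5 : b ≠ v) (h6 : b ≠ w) (h7 : u ≠ v) (h8 : u ≠ w) (h9 : v ≠ w) :
    Function.Injective ![a, u, v, w, b] := by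
  rw [← List.nodup_ofFn]
  simp [List.ofFn_succ, h0, h1, h2, h3, h4.symm, h5.symm, h6.symm, h7, h8, h9]

theorem five {G : SimpleGraph U} [Fintype U] {A : Finset U} {k : ℕ} (hA : Conn G A (4 * k))
    (hk : 0 < k) (h5 : A.card = 5) : ∃ M, Real G A M ∧ Decomp A k 4 M := by
  obtain ⟨a, b, c, d, e, hab, hac, had, hae, hbc, hbd, hbe, hcd, hce, hde, hAeq⟩ :
      ∃ a b c d e : U, a ≠ b ∧ a ≠ c ∧ a ≠ d ∧ a ≠ e ∧ b ≠ c ∧ b ≠ d ∧ b ≠ e ∧ c ≠ d ∧ c ≠ e ∧
        d ≠ e ∧ A = {a, b, c, d, e} := by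
    let f := A.equivFinOfCardEq h5
    let g : Fin 5 → U := fun i => (f.symm i).1
    have hg : Function.Injective g := fun i j hij => f.symm.injective (Subtype.ext hij)
    refine ⟨g 0, g 1, g 2, g 3, g 4, ?_⟩
    have hne : ∀ i j : Fin 5, i ≠ j → g i ≠ g j := fun i j hij h => hij (hg h)
    refine ⟨hne _ _ (by decide), hne _ _ (by decide), hne _ _ (by decide), hne _ _ (by decide),
      hne _ _ (by decide), hne _ _ (by decide), hne _ _ (by decide), hne _ _ (by decide),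
      hne _ _ (by decide), hne _ _ (by decide), ?_⟩
    ext x
    constructor
    · intro hx
      have : x = g (f ⟨x, hx⟩) := by simp [g]
      rw [this]
      generalize f ⟨x, hx⟩ = i
      fin_cases i <;> simp
    · intro hx
      have : ∃ i, x = g i := by
        simp only [Finset.mem_insert, Finset.mem_singleton] at hx
        rcases hx with h | h | h | h | h
        exacts [⟨_, h⟩, ⟨_, h⟩, ⟨_, h⟩, ⟨_, h⟩, ⟨_, h⟩]
      obtain ⟨i, rfl⟩ := this
      exact (f.symm i).2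
  have ha : a ∈ A := by rw [hAeq]; simp
  have hb : b ∈ A := by rw [hAeq]; simp
  have hc : c ∈ A := by rw [hAeq]; simp
  have hd : d ∈ A := by rw [hAeq]; simp
  have he : e ∈ A := by rw [hAeq]; simp
  -- two terminals
  have R2 := start hA ha hb hab k (by omega)
  rw [← Multiset.nsmul_singleton] at R2
  -- three terminals
  obtain ⟨y, hy, hyc, R3⟩ := step hA (by
      intro x hx
      rw [Finset.mem_insert, Finset.mem_singleton] at hx
      rcases hx with rfl | rfl
      exacts [ha, hb]) R2 hc (by simp [hac.symm, hbc.symm]) (by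
      intro x hx
      refine ⟨s(a, b), ?_, ?_⟩
      · rw [Multiset.nsmul_singleton, Multiset.mem_replicate]; exact ⟨by omega, rfl⟩
      · rw [Finset.mem_insert, Finset.mem_singleton] at hx
        rcases hx with rfl | rfl <;> simp) k hk (by simp) (by simp; omega)
  obtain ⟨x, hx, rfl⟩ := le_nsmul_single hy
  have hxk : x = k := by simpa using hyc
  rw [hxk, tsub_self, zero_add, pins_smul] at R3
  clear hyc hx hxk hy
  -- four terminals
  rw [nsmul_add] at R3
  obtain ⟨y, hy, hyc, R4⟩ := step hA (by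
      intro x hx
      simp only [Finset.mem_insert, Finset.mem_singleton] at hx
      rcases hx with rfl | rfl | rfl
      exacts [hc, ha, hb]) R3 hd (by simp [hcd.symm, had.symm, hbd.symm]) (by
      intro x hx
      simp only [Finset.mem_insert, Finset.mem_singleton] at hx
      have m1 : s(a, c) ∈ k • ({s(a, c)} : Multiset (Sym2 U)) + k • {s(b, c)} := by
        rw [Multiset.mem_add, Multiset.nsmul_singleton, Multiset.mem_replicate]
        exact Or.inl ⟨by omega, rfl⟩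
      have m2 : s(b, c) ∈ k • ({s(a, c)} : Multiset (Sym2 U)) + k • {s(b, c)} := by
        rw [Multiset.mem_add, Multiset.nsmul_singleton, Multiset.nsmul_singleton,
          Multiset.mem_replicate, Multiset.mem_replicate]
        exact Or.inr ⟨by omega, rfl⟩
      rcases hx with rfl | rfl | rfl
      exacts [⟨_, m1, by simp⟩, ⟨_, m1, by simp⟩, ⟨_, m2, by simp⟩]) k hk (by simp)
      (by simp; omega)
  obtain ⟨y1, y2, hy1, hy2, rfl⟩ := le_add_split hy
  obtain ⟨p, hp, rfl⟩ := le_nsmul_single hy1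
  obtain ⟨q, hq, rfl⟩ := le_nsmul_single hy2
  have hpq : p + q = k := by simpa using hyc
  have hM4 : k • ({s(a, c)} : Multiset (Sym2 U)) + k • {s(b, c)} - (p • {s(a, c)} + q • {s(b, c)}) +
      pins d (p • {s(a, c)} + q • {s(b, c)}) =
      q • {s(a, c)} + p • {s(b, c)} + p • {s(a, d)} + q • {s(b, d)} + k • {s(c, d)} := by
    have h1 : k • ({s(a, c)} : Multiset (Sym2 U)) + k • {s(b, c)} =
        (p • {s(a, c)} + q • {s(b, c)}) + (q • {s(a, c)} + p • {s(b, c)}) := by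
      rw [← hpq]; module
    rw [h1, add_tsub_cancel_left, pins_add, pins_smul, pins_smul, ← hpq]
    module
  rw [hM4] at R4
  clear hM4 hyc hy hy1 hy2
  -- five terminals
  have hcov4 : ∀ x ∈ (insert d (insert c {a, b}) : Finset U),
      ∃ f ∈ q • ({s(a, c)} : Multiset (Sym2 U)) + p • {s(b, c)} + p • {s(a, d)} + q • {s(b, d)} +
        k • {s(c, d)}, x ∈ f := by
    intro x hx
    have m5 : s(c, d) ∈ q • ({s(a, c)} : Multiset (Sym2 U)) + p • {s(b, c)} + p • {s(a, d)} +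
        q • {s(b, d)} + k • {s(c, d)} := by
      rw [Multiset.mem_add]
      right
      rw [Multiset.nsmul_singleton, Multiset.mem_replicate]
      exact ⟨by omega, rfl⟩
    have mpos : ∀ (n : ℕ) (f : Sym2 U), 0 < n → f ∈ n • ({f} : Multiset (Sym2 U)) := by
      intro n f hn
      rw [Multiset.nsmul_singleton, Multiset.mem_replicate]; exact ⟨by omega, rfl⟩
    simp only [Finset.mem_insert, Finset.mem_singleton] at hx
    rcases hx with rfl | rfl | rfl | rfl
    · exact ⟨_, m5, by simp⟩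
    · exact ⟨_, m5, by simp⟩
    · rcases Nat.eq_zero_or_pos p with h0 | h0
      · exact ⟨s(x, c), by simp only [Multiset.mem_add]; simp [mpos q s(x, c) (by omega)], by simp⟩
      · exact ⟨s(x, d), by simp only [Multiset.mem_add]; simp [mpos p s(x, d) (by omega)], by simp⟩
    · rcases Nat.eq_zero_or_pos p with h0 | h0
      · exact ⟨s(x, d), by simp only [Multiset.mem_add]; simp [mpos q s(x, d) (by omega)], by simp⟩
      · exact ⟨s(x, c), by simp only [Multiset.mem_add]; simp [mpos p s(x, c) (by omega)], by simp⟩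
  obtain ⟨y, hy, hyc, R5⟩ := step hA (by
      intro x hx
      simp only [Finset.mem_insert, Finset.mem_singleton] at hx
      rcases hx with rfl | rfl | rfl | rfl
      exacts [hd, hc, ha, hb]) R4 he (by simp [hce.symm, hae.symm, hbe.symm, hde.symm]) hcov4 k hk
      (by simp) (by simp; omega)
  obtain ⟨z4, y5, hz4, hy5, rfl⟩ := le_add_split hy
  obtain ⟨z3, y4, hz3, hy4, rfl⟩ := le_add_split hz4
  obtain ⟨z2, y3, hz2, hy3, rfl⟩ := le_add_split hz3
  obtain ⟨y1, y2, hy1, hy2, rfl⟩ := le_add_split hz2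
  obtain ⟨x2, hx2, rfl⟩ := le_nsmul_single hy1
  obtain ⟨x3, hx3, rfl⟩ := le_nsmul_single hy2
  obtain ⟨x1, hx1, rfl⟩ := le_nsmul_single hy3
  obtain ⟨x4, hx4, rfl⟩ := le_nsmul_single hy4
  obtain ⟨x5, hx5, rfl⟩ := le_nsmul_single hy5
  have hsum : x2 + x3 + x1 + x4 + x5 = k := by simpa using hyc
  obtain ⟨s, h1, h2, h3, h4, h6⟩ : ∃ s, s ≤ x5 ∧ s + x2 ≤ q ∧ q ≤ x1 + x2 + x4 + s ∧
      x1 + x5 ≤ p + s ∧ p + s ≤ x1 + x2 + x3 + x5 := by
    rcases le_total (q - (x1 + x2 + x4)) (x1 + x5 - p) with h | h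
    · exact ⟨x1 + x5 - p, by omega, by omega, by omega, by omega, by omega⟩
    · exact ⟨q - (x1 + x2 + x4), by omega, by omega, by omega, by omega, by omega⟩
  obtain ⟨n1, hn1⟩ : ∃ n, n = x5 - s := ⟨_, rfl⟩
  obtain ⟨n2, hn2⟩ : ∃ n, n = q - x2 - s := ⟨_, rfl⟩
  obtain ⟨n3, hn3⟩ : ∃ n, n = x1 + x2 + x4 + s - q := ⟨_, rfl⟩
  obtain ⟨n4, hn4⟩ : ∃ n, n = p + s - (x1 + x5) := ⟨_, rfl⟩
  obtain ⟨n5, hn5⟩ : ∃ n, n = x1 + x2 + x3 + x5 - (p + s) := ⟨_, rfl⟩
  have hM5 : q • ({s(a, c)} : Multiset (Sym2 U)) + p • {s(b, c)} + p • {s(a, d)} + q • {s(b, d)} +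
        k • {s(c, d)} - (x2 • {s(a, c)} + x3 • {s(b, c)} + x1 • {s(a, d)} + x4 • {s(b, d)} +
        x5 • {s(c, d)}) + pins e (x2 • {s(a, c)} + x3 • {s(b, c)} + x1 • {s(a, d)} +
        x4 • {s(b, d)} + x5 • {s(c, d)}) =
      (s + n2) • {s(a, c)} + (n1 + n4) • {s(a, d)} + (n3 + n5) • {s(a, e)} +
      (n1 + n3) • {s(b, c)} + (s + n5) • {s(b, d)} + (n2 + n4) • {s(b, e)} +
      (n2 + n3 + n4 + n5) • {s(c, d)} + (s + n1 + n4 + n5) • {s(c, e)} +
      (s + n1 + n2 + n3) • {s(d, e)} := by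
    obtain ⟨r1, hr1⟩ : ∃ r, p = x1 + r := ⟨p - x1, by omega⟩
    obtain ⟨r2, hr2⟩ : ∃ r, q = x2 + r := ⟨q - x2, by omega⟩
    obtain ⟨r3, hr3⟩ : ∃ r, p = x3 + r := ⟨p - x3, by omega⟩
    obtain ⟨r4, hr4⟩ : ∃ r, q = x4 + r := ⟨q - x4, by omega⟩
    obtain ⟨r5, hr5⟩ : ∃ r, k = x5 + r := ⟨k - x5, by omega⟩
    have h7 : q • ({s(a, c)} : Multiset (Sym2 U)) + p • {s(b, c)} + p • {s(a, d)} +
        q • {s(b, d)} + k • {s(c, d)} = (x2 • {s(a, c)} + x3 • {s(b, c)} + x1 • {s(a, d)} +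
        x4 • {s(b, d)} + x5 • {s(c, d)}) + (r2 • {s(a, c)} + r3 • {s(b, c)} + r1 • {s(a, d)} +
        r4 • {s(b, d)} + r5 • {s(c, d)}) := by
      conv_lhs => rw [hr5]
      have e1 : q • ({s(a, c)} : Multiset (Sym2 U)) = (x2 + r2) • {s(a, c)} := by rw [← hr2]
      have e2 : q • ({s(b, d)} : Multiset (Sym2 U)) = (x4 + r4) • {s(b, d)} := by rw [← hr4]
      have e3 : p • ({s(b, c)} : Multiset (Sym2 U)) = (x3 + r3) • {s(b, c)} := by rw [← hr3]
      have e4 : p • ({s(a, d)} : Multiset (Sym2 U)) = (x1 + r1) • {s(a, d)} := by rw [← hr1]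
      rw [e1, e2, e3, e4]
      module
    rw [h7, add_tsub_cancel_left]
    simp only [pins_add, pins_smul]
    have c1 : s + n2 = r2 := by omega
    have c2 : n1 + n4 = r1 := by omega
    have c3 : n3 + n5 = x1 + x2 := by omega
    have c4 : n1 + n3 = r3 := by omega
    have c5 : s + n5 = r4 := by omega
    have c6 : n2 + n4 = x3 + x4 := by omega
    have c7 : n2 + n3 + n4 + n5 = r5 := by omega
    have c8 : s + n1 + n4 + n5 = x2 + x3 + x5 := by omega
    have c9 : s + n1 + n2 + n3 = x1 + x4 + x5 := by omega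
    rw [c1, c2, c3, c4, c5, c6, c7, c8, c9]
    module
  rw [hM5] at R5
  have hAins : (insert e (insert d (insert c {a, b})) : Finset U) = A := by
    rw [hAeq]; ext x; simp only [Finset.mem_insert, Finset.mem_singleton]; tauto
  rw [hAins] at R5
  refine ⟨_, R5, ?_⟩
  -- the paths `a p q r b`
  have hpath : ∀ (u v w : U) (m : ℕ), a ≠ u → a ≠ v → a ≠ w → b ≠ u → b ≠ v → b ≠ w → u ≠ v →
      u ≠ w → v ≠ w → (∀ x, x = a ∨ x = b ∨ x = c ∨ x = d ∨ x = e ↔
        x = a ∨ x = u ∨ x = v ∨ x = w ∨ x = b) →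
      Decomp A m 4 (m • ({s(a, u)} + {s(u, v)} + {s(v, w)} + {s(b, w)})) := by
    intro u v w m h1 h2 h3 h4 h5 h6 h7 h8 h9 h10
    have := Decomp.single (A := A) (n := 4) ![a, u, v, w, b]
      (inj5 hab h1 h2 h3 h4 h5 h6 h7 h8 h9) (by
      intro j
      rw [hAeq]
      simp only [Finset.mem_insert, Finset.mem_singleton]
      rw [h10]
      fin_cases j <;> simp) (by
      intro x hx
      rw [hAeq] at hx
      simp only [Finset.mem_insert, Finset.mem_singleton] at hx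
      rw [h10] at hx
      rcases hx with h | h | h | h | h
      · exact ⟨0, h.symm⟩
      · exact ⟨1, h.symm⟩
      · exact ⟨2, h.symm⟩
      · exact ⟨3, h.symm⟩
      · exact ⟨4, h.symm⟩) m
    have hpm : pathM ![a, u, v, w, b] =
        ({s(a, u)} : Multiset (Sym2 U)) + {s(u, v)} + {s(v, w)} + {s(b, w)} := by
      rw [pathM, Fin.sum_univ_four, Sym2.eq_swap (a := b)]
      rfl
    rw [hpm] at this
    exact this
  have D1 := hpath c e d s hac hae had hbc hbe hbd hce hcd hde.symm (by intro x; tauto)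
  have D2 := hpath d e c n1 had hae hac hbd hbe hbc hde hcd.symm hce.symm (by intro x; tauto)
  have D3 := hpath c d e n2 hac had hae hbc hbd hbe hcd hce hde (by intro x; tauto)
  have D4 := hpath e d c n3 hae had hac hbe hbd hbc hde.symm hce.symm hcd.symm (by intro x; tauto)
  have D5 := hpath d c e n4 had hac hae hbd hbc hbe hcd.symm hde hce (by intro x; tauto)
  have D6 := hpath e c d n5 hae hac had hbe hbc hbd hce.symm hde.symm hcd (by intro x; tauto)
  have hk6 : s + n1 + n2 + n3 + n4 + n5 = k := by omega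
  have D := ((((D1.add D2).add D3).add D4).add D5).add D6
  rw [hk6] at D
  have e1 : s(e, d) = s(d, e) := Sym2.eq_swap
  have e2 : s(e, c) = s(c, e) := Sym2.eq_swap
  have e3 : s(d, c) = s(c, d) := Sym2.eq_swap
  rw [e1, e2, e3] at D
  have hfin : (s + n2) • ({s(a, c)} : Multiset (Sym2 U)) + (n1 + n4) • {s(a, d)} +
      (n3 + n5) • {s(a, e)} +
      (n1 + n3) • {s(b, c)} + (s + n5) • {s(b, d)} + (n2 + n4) • {s(b, e)} +
      (n2 + n3 + n4 + n5) • {s(c, d)} + (s + n1 + n4 + n5) • {s(c, e)} +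
      (s + n1 + n2 + n3) • {s(d, e)} =
      s • ({s(a, c)} + {s(c, e)} + {s(d, e)} + {s(b, d)}) +
      n1 • ({s(a, d)} + {s(d, e)} + {s(c, e)} + {s(b, c)}) +
      n2 • ({s(a, c)} + {s(c, d)} + {s(d, e)} + {s(b, e)}) +
      n3 • ({s(a, e)} + {s(d, e)} + {s(c, d)} + {s(b, c)}) +
      n4 • ({s(a, d)} + {s(c, d)} + {s(c, e)} + {s(b, e)}) +
      n5 • ({s(a, e)} + {s(c, e)} + {s(c, d)} + {s(b, d)}) := by module
  rw [hfin]
  exact D

end Pool.Agent.Hag
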