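import Pool.Agent.LibHag.ToWalk

/-!
# The insertion game
-/

set_option autoImplicit false

open Finset

namespace Pool.Agent.Hag

variable {U : Type} [DecidableEq U]

/-- The two links that replace a link pinched at `v`. -/
def pin (v : U) : Sym2 U → Multiset (Sym2 U) :=
  Sym2.lift ⟨fun u w => {s(u, v), s(w, v)}, fun _ _ => Multiset.pair_comm _ _⟩

omit [DecidableEq U] in
theorem pin_mk (v u w : U) : pin v s(u, w) = {s(u, v), s(w, v)} := rfl

/-- The links pinched at `v`. -/
def pins (v : U) (y : Multiset (Sym2 U)) : Multiset (Sym2 U) := y.bind (pin v)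

omit [DecidableEq U] in
theorem pins_zero (v : U) : pins v 0 = 0 := rfl

omit [DecidableEq U] in
theorem pins_cons (v : U) (e : Sym2 U) (y : Multiset (Sym2 U)) :
    pins v (e ::ₘ y) = pin v e + pins v y := Multiset.cons_bind _ _ _

omit [DecidableEq U] in
theorem pins_add (v : U) (y z : Multiset (Sym2 U)) : pins v (y + z) = pins v y + pins v z :=
  Multiset.add_bind _ _ _

omit [DecidableEq U] in
theorem pins_nsmul (v : U) (n : ℕ) (e : Sym2 U) :
    pins v (Multiset.replicate n e) = n • pin v e := by
  induction n with
  | zero => simp [pins_zero]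
  | succ n ih => rw [Multiset.replicate_succ, pins_cons, ih, add_comm, succ_nsmul]

omit [DecidableEq U] in
theorem card_pin (v : U) (e : Sym2 U) : (pin v e).card = 2 := by
  induction e with
  | _ u w => rfl

omit [DecidableEq U] in
theorem card_pins (v : U) (y : Multiset (Sym2 U)) : (pins v y).card = 2 * y.card := by
  induction y using Multiset.induction_on with
  | empty => rfl
  | cons e y ih => rw [pins_cons, Multiset.card_add, card_pin, ih, Multiset.card_cons]; ring

omit [DecidableEq U] in
theorem mem_pins {v : U} {y : Multiset (Sym2 U)} {e : Sym2 U} (h : e ∈ pins v y) : v ∈ e := by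
  rw [pins, Multiset.mem_bind] at h
  obtain ⟨f, _, hf⟩ := h
  induction f with
  | _ u w =>
    rw [pin_mk] at hf
    simp only [Multiset.insert_eq_cons, Multiset.mem_cons, Multiset.mem_singleton] at hf
    rcases hf with rfl | rfl <;> simp

variable [Fintype U]

/-- **Inserting a terminal**: with at least `n` links on `B`, covering `B`, and room for `n` more,
a new terminal can be inserted in `n` of the links. -/
theorem step {G : SimpleGraph U} {A B : Finset U} {c : ℕ} (hA : Conn G A c) (hB : B ⊆ A)
    {M : Multiset (Sym2 U)} (hM : Real G B M) {v : U} (hv : v ∈ A) (hvB : v ∉ B)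
    (hcov : ∀ x ∈ B, ∃ e ∈ M, x ∈ e) (n : ℕ) (hn0 : 0 < n) (hn : n ≤ M.card)
    (hc : M.card + n ≤ c) :
    ∃ y, y ≤ M ∧ y.card = n ∧ Real G (insert v B) (M - y + pins v y) := by
  have hloop := hM.isLoopless
  have hvM : ∀ e ∈ M, v ∉ e := fun e he hve => hvB ((hloop e he).2 v hve)
  have hB' : insert v B ⊆ A := Finset.insert_subset hv hB
  -- one more pinch
  have hone : ∀ y, y ≤ M → y.card < n → Real G (insert v B) (M - y + pins v y) →
      ∃ y', y' ≤ M ∧ y'.card = y.card + 1 ∧ Real G (insert v B) (M - y' + pins v y') := by
    intro y hy hyn hR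
    have hcard : (M - y + pins v y).card < c := by
      rw [Multiset.card_add, card_pins, Multiset.card_sub hy]
      have := Multiset.card_le_card hy
      omega
    have hcov' : ∀ x ∈ insert v B, x ≠ v → x ∉ (∅ : Finset U) →
        ∃ e ∈ M - y + pins v y, x ∈ e := by
      intro x hx hxv _
      rw [Finset.mem_insert] at hx
      obtain ⟨e, he, hxe⟩ := hcov x (hx.resolve_left hxv)
      by_cases hey : e ∈ y
      · induction e with
        | _ a b =>
          refine ⟨s(x, v), ?_, by simp⟩
          apply Multiset.mem_add.2
          right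
          rw [pins, Multiset.mem_bind]
          refine ⟨_, hey, ?_⟩
          rw [pin_mk]
          rw [Sym2.mem_iff] at hxe
          rcases hxe with rfl | rfl <;> simp
      · refine ⟨e, Multiset.mem_add.2 (Or.inl ?_), hxe⟩
        have : e ∈ M - y + y := by rw [Multiset.sub_add_cancel hy]; exact he
        rcases Multiset.mem_add.1 this with h | h
        · exact h
        · exact absurd h hey
    have hrest : ∃ e, e ∈ M - y := by
      apply Multiset.exists_mem_of_ne_zero
      intro h0
      have h1 : (M - y).card = 0 := by rw [h0]; rfl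
      rw [Multiset.card_sub hy] at h1
      omega
    obtain ⟨e0, he0⟩ := hrest
    have hav : ∃ e ∈ M - y + pins v y, v ∉ e :=
      ⟨e0, Multiset.mem_add.2 (Or.inl he0), hvM e0 (Multiset.mem_of_le (Multiset.sub_le_self _ _) he0)⟩
    rcases pinch hA hB' hR hcard (Finset.mem_insert_self v B) ∅ (Finset.empty_subset _)
      (by simp) hcov' (Or.inr hav) with ⟨u, w, M0, hu, hw, hM0, hreal⟩ | ⟨x, hx, _⟩
    · have hmem : s(u, w) ∈ M - y + pins v y := by rw [hM0]; exact Multiset.mem_cons_self _ _
      have hnp : s(u, w) ∉ pins v y := by
        intro h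
        have := mem_pins h
        rw [Sym2.mem_iff] at this
        rcases this with h | h
        · exact hu h.symm
        · exact hw h.symm
      have hmem2 : s(u, w) ∈ M - y := (Multiset.mem_add.1 hmem).resolve_right hnp
      refine ⟨s(u, w) ::ₘ y, ?_, by rw [Multiset.card_cons], ?_⟩
      · obtain ⟨N, hN⟩ := Multiset.exists_cons_of_mem hmem2
        have h1 : M = M - y + y := (Multiset.sub_add_cancel hy).symm
        rw [h1, hN, Multiset.cons_add]
        exact Multiset.cons_le_cons _ (Multiset.le_add_left _ _)
      · obtain ⟨N, hN⟩ := Multiset.exists_cons_of_mem hmem2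
        have h1 : M = N + s(u, w) ::ₘ y := by
          rw [← Multiset.sub_add_cancel hy, hN, Multiset.cons_add, Multiset.add_cons]
        have h2 : M - s(u, w) ::ₘ y = N := by
          conv_lhs => rw [h1]
          exact Multiset.add_sub_cancel_right
        have h3 : M0 = N + pins v y := by
          rw [hN, Multiset.cons_add] at hM0
          exact ((Multiset.cons_inj_right _).1 hM0).symm
        rw [h2, pins_cons, pin_mk]
        have h4 : N + ({s(u, v), s(w, v)} + pins v y) = s(u, v) ::ₘ s(w, v) ::ₘ M0 := by
          rw [h3]
          simp only [Multiset.insert_eq_cons, ← Multiset.singleton_add]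
          abel
        rw [h4]
        exact hreal
    · simp at hx
  have hall : ∀ m, ∀ y, y ≤ M → y.card + m = n → Real G (insert v B) (M - y + pins v y) →
      ∃ y, y ≤ M ∧ y.card = n ∧ Real G (insert v B) (M - y + pins v y) := by
    intro m
    induction m with
    | zero => intro y hy hn' hR; exact ⟨y, hy, by omega, hR⟩
    | succ m ih =>
      intro y hy hn' hR
      obtain ⟨y', h1, h2, h3⟩ := hone y hy (by omega) hR
      exact ih y' h1 (by omega) h3
  rcases hM.insertTerm hvB with h | ⟨u, w, M0, h1, h2⟩
  · refine hall n 0 (Multiset.zero_le _) (by simp) ?_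
    rw [tsub_zero, pins_zero, add_zero]
    exact h
  · refine hall (n - 1) {s(u, w)} ?_ (by rw [Multiset.card_singleton]; omega) ?_
    · rw [h1, Multiset.singleton_le]; exact Multiset.mem_cons_self _ _
    · have h3 : M - {s(u, w)} = M0 := by
        rw [h1, ← Multiset.singleton_add, add_tsub_cancel_left]
      have h4 : pins v {s(u, w)} = {s(u, v), s(w, v)} := by
        rw [pins, Multiset.singleton_bind, pin_mk]
      rw [h3, h4, add_comm]
      have h5 : ({s(u, v), s(w, v)} : Multiset (Sym2 U)) + M0 = s(u, v) ::ₘ s(w, v) ::ₘ M0 := by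
        simp only [Multiset.insert_eq_cons, ← Multiset.singleton_add]
        abel
      rw [h5]
      exact h2

/-- The first two terminals: `n ≤ c` links between them. -/
theorem start {G : SimpleGraph U} {A : Finset U} {c : ℕ} (hA : Conn G A c) {a b : U} (ha : a ∈ A)
    (hb : b ∈ A) (hab : a ≠ b) (n : ℕ) (hn : n ≤ c) :
    Real G {a, b} (Multiset.replicate n s(a, b)) := by
  induction n with
  | zero => exact real_zero _ _
  | succ n ih =>
    have hR := ih (by omega)
    have hB : ({a, b} : Finset U) ⊆ A := by
      intro x hx
      rw [Finset.mem_insert, Finset.mem_singleton] at hx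
      rcases hx with rfl | rfl
      · exact ha
      · exact hb
    rcases pinch (v := a) hA hB hR (by rw [Multiset.card_replicate]; omega) (by simp) {b} (by simp)
      (by simpa using hab) (fun x hx hxa hxb => by
        rw [Finset.mem_insert, Finset.mem_singleton] at hx
        rw [Finset.mem_singleton] at hxb
        rcases hx with h | h
        · exact absurd h hxa
        · exact absurd h hxb) (Or.inl (by simp)) with ⟨u, w, M0, hu, hw, hM0, hreal⟩ | ⟨x, hx, h⟩
    · exfalso
      have hmem : s(u, w) ∈ Multiset.replicate n s(a, b) := by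
        rw [hM0]; exact Multiset.mem_cons_self _ _
      have := Multiset.eq_of_mem_replicate hmem
      rw [Sym2.eq_iff] at this
      rcases this with ⟨h1, _⟩ | ⟨_, h1⟩
      · exact hu h1
      · exact hw h1
    · rw [Finset.mem_singleton] at hx
      rw [hx, Sym2.eq_swap] at h
      rw [Multiset.replicate_succ]
      exact h

end Pool.Agent.Hag
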