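import Mathlib

/-!
# A linkage lemma (Menger's theorem with prescribed ends), deduced from Hall's theorem

Written for `MP_96ef52_co` (Hager's conjecture on internally disjoint paths through `t` vertices).
-/

set_option autoImplicit false

open Finset

namespace Pool.Agent.Hag

/-- Hall's theorem in the form used for linkings: `φ` sends every vertex outside `S` to itself or
to an in-neighbour, injectively, and avoids a set `Y` of at least `n` vertices of `H`. -/
theorem hall_linkage {P : Type} [Fintype P] [DecidableEq P] (E : P → P → Prop)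
    (S H U0 : Finset P) (hU : U0 ⊆ H) (n : ℕ)
    (hsep : ∀ L R : Finset P, Disjoint L S → L ⊆ R → H ⊆ R →
      (∀ p ∈ L, ∀ q, E q p → q ∈ R) → n ≤ (R \ L).card)
    (φ0 : P → P) (h0 : ∀ p ∉ S, ∀ q ∉ S, φ0 p = φ0 q → p = q)
    (h0E : ∀ p ∉ S, φ0 p = p ∨ E (φ0 p) p) (h0U : ∀ p ∉ S, φ0 p ∉ U0) :
    ∃ (φ : P → P) (Y : Finset P), U0 ⊆ Y ∧ Y ⊆ H ∧ n ≤ Y.card ∧
      (∀ p ∉ S, ∀ q ∉ S, φ p = φ q → p = q) ∧
      (∀ p ∉ S, φ p = p ∨ E (φ p) p) ∧ (∀ p ∉ S, φ p ∉ Y) := by
  classical
  set d := U0.card with hd
  let N : P → Finset P := fun p => univ.filter (fun q => q = p ∨ E q p)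
  let t : {p : P // p ∉ S} ⊕ Fin (n - d) → Finset P := fun x =>
    match x with
    | Sum.inl p => N p.1 \ U0
    | Sum.inr _ => H \ U0
  have hall : ∀ s : Finset ({p : P // p ∉ S} ⊕ Fin (n - d)), s.card ≤ (s.biUnion t).card := by
    intro s
    set L : Finset P := s.toLeft.image Subtype.val with hL
    have hLcard : L.card = s.toLeft.card :=
      Finset.card_image_of_injective _ Subtype.val_injective
    have hcard : s.card = L.card + s.toRight.card := by
      rw [hLcard]; exact (Finset.card_toLeft_add_card_toRight).symm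
    have hLS : ∀ p ∈ L, p ∉ S := by
      intro p hp
      rw [hL, Finset.mem_image] at hp
      obtain ⟨x, _, rfl⟩ := hp
      exact x.2
    have hmemL : ∀ p ∈ L, ∀ q, (q = p ∨ E q p) → q ∉ U0 → q ∈ s.biUnion t := by
      intro p hp q hq hqU
      rw [hL, Finset.mem_image] at hp
      obtain ⟨x, hx, rfl⟩ := hp
      rw [Finset.mem_toLeft] at hx
      rw [Finset.mem_biUnion]
      refine ⟨_, hx, ?_⟩
      simp only [t, N, Finset.mem_sdiff, Finset.mem_filter, Finset.mem_univ, true_and]
      exact ⟨hq, hqU⟩
    rcases Finset.eq_empty_or_nonempty s.toRight with hr | hr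
    · rw [hcard, hr, Finset.card_empty, add_zero]
      refine Finset.card_le_card_of_injOn φ0 ?_ ?_
      · intro p hp
        have hp' : p ∈ L := hp
        exact hmemL p hp' _ (h0E p (hLS p hp')) (h0U p (hLS p hp'))
      · intro p hp q hq h
        exact h0 p (hLS p hp) q (hLS q hq) h
    · have hR : (s.toRight).card ≤ n - d := by
        have := Finset.card_le_univ s.toRight
        simpa using this
      have hn : d ≤ n := by
        have : 0 < s.toRight.card := Finset.card_pos.2 hr
        omega
      set R : Finset P := L.biUnion N ∪ H with hRdef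
      have hLR : L ⊆ R := by
        intro p hp
        rw [hRdef, Finset.mem_union, Finset.mem_biUnion]
        exact Or.inl ⟨p, hp, by simp [N]⟩
      have h1 := hsep L R (by
          rw [Finset.disjoint_left]; exact hLS) hLR Finset.subset_union_right (by
          intro p hp q hq
          rw [hRdef, Finset.mem_union, Finset.mem_biUnion]
          exact Or.inl ⟨p, hp, by simp [N, hq]⟩)
      have h2 : R \ U0 ⊆ s.biUnion t := by
        intro q hq
        rw [Finset.mem_sdiff, hRdef, Finset.mem_union, Finset.mem_biUnion] at hq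
        obtain ⟨hq1 | hq1, hqU⟩ := hq
        · obtain ⟨p, hp, hqp⟩ := hq1
          simp only [N, Finset.mem_filter, Finset.mem_univ, true_and] at hqp
          exact hmemL p hp q hqp hqU
        · obtain ⟨z, hz⟩ := hr
          rw [Finset.mem_toRight] at hz
          rw [Finset.mem_biUnion]
          refine ⟨_, hz, ?_⟩
          simp only [t, Finset.mem_sdiff]
          exact ⟨hq1, hqU⟩
      have h3 := Finset.card_le_card h2
      have h4 : R.card - U0.card ≤ (R \ U0).card := Finset.le_card_sdiff _ _
      have h5 : (R \ L).card = R.card - L.card := Finset.card_sdiff_of_subset hLR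
      have h6 : L.card ≤ R.card := Finset.card_le_card hLR
      rw [hcard]
      omega
  obtain ⟨f, hf, hft⟩ := (Finset.all_card_le_biUnion_card_iff_exists_injective t).1 hall
  have hfl : ∀ (p : P) (hp : p ∉ S), (f (Sum.inl ⟨p, hp⟩) = p ∨ E (f (Sum.inl ⟨p, hp⟩)) p) ∧
      f (Sum.inl ⟨p, hp⟩) ∉ U0 := by
    intro p hp
    have := hft (Sum.inl ⟨p, hp⟩)
    simpa [t, N] using this
  have hfr : ∀ z, f (Sum.inr z) ∈ H ∧ f (Sum.inr z) ∉ U0 := by
    intro z
    have := hft (Sum.inr z)
    simpa [t] using this
  let φ : P → P := fun p => if h : p ∉ S then f (Sum.inl ⟨p, h⟩) else p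
  have hφ : ∀ (p : P) (hp : p ∉ S), φ p = f (Sum.inl ⟨p, hp⟩) := by
    intro p hp; simp only [φ]; rw [dif_pos hp]
  refine ⟨φ, H.filter (fun h => ∀ p ∉ S, φ p ≠ h), ?_, Finset.filter_subset _ _, ?_, ?_, ?_, ?_⟩
  · intro u hu
    rw [Finset.mem_filter]
    refine ⟨hU hu, fun p hp h => ?_⟩
    rw [hφ p hp] at h
    exact (hfl p hp).2 (h ▸ hu)
  · have hsub : U0 ∪ (univ : Finset (Fin (n - d))).image (fun z => f (Sum.inr z)) ⊆
        H.filter (fun h => ∀ p ∉ S, φ p ≠ h) := by
      intro q hq
      rw [Finset.mem_union] at hq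
      rw [Finset.mem_filter]
      rcases hq with hq | hq
      · refine ⟨hU hq, fun p hp h => ?_⟩
        rw [hφ p hp] at h
        exact (hfl p hp).2 (h ▸ hq)
      · rw [Finset.mem_image] at hq
        obtain ⟨z, _, rfl⟩ := hq
        refine ⟨(hfr z).1, fun p hp h => ?_⟩
        rw [hφ p hp] at h
        have := hf h
        simp at this
    have hdis : Disjoint U0 ((univ : Finset (Fin (n - d))).image (fun z => f (Sum.inr z))) := by
      rw [Finset.disjoint_right]
      intro q hq
      rw [Finset.mem_image] at hq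
      obtain ⟨z, _, rfl⟩ := hq
      exact (hfr z).2
    have hinj : Function.Injective (fun z : Fin (n - d) => f (Sum.inr z)) := by
      intro a b h
      have := hf h
      simpa using this
    have := Finset.card_le_card hsub
    rw [Finset.card_union_of_disjoint hdis, Finset.card_image_of_injective _ hinj,
      Finset.card_univ, Fintype.card_fin] at this
    omega
  · intro p hp q hq h
    rw [hφ p hp, hφ q hq] at h
    have := hf h
    simpa using this
  · intro p hp
    rw [hφ p hp]
    exact (hfl p hp).1
  · intro p hp hmem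
    rw [Finset.mem_filter] at hmem
    exact hmem.2 p hp rfl

/-- Following `φ` from a vertex outside the image of `φ`, we reach `S`. -/
theorem extract {P : Type} [Fintype P] [DecidableEq P] (E : P → P → Prop) (S Y : Finset P)
    (φ : P → P) (hinj : ∀ p ∉ S, ∀ q ∉ S, φ p = φ q → p = q)
    (hE : ∀ p ∉ S, φ p = p ∨ E (φ p) p) (hY : ∀ p ∉ S, φ p ∉ Y) :
    ∃ path : P → List P, (∀ y ∈ Y, (∃ s ∈ S, (path y ++ [y]).head? = some s) ∧
        (path y ++ [y]).IsChain E ∧ (path y ++ [y]).Nodup ∧ ∀ q ∈ path y, q ∉ Y) ∧
      ∀ y ∈ Y, ∀ y' ∈ Y, y ≠ y' → List.Disjoint (path y ++ [y]) (path y' ++ [y']) := by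
  classical
  -- no repetition before hitting `S`
  have key : ∀ y ∈ Y, ∀ y' ∈ Y, ∀ i j : ℕ, (∀ k < i, φ^[k] y ∉ S) → (∀ k < j, φ^[k] y' ∉ S) →
      φ^[i] y = φ^[j] y' → i = j ∧ y = y' := by
    intro y hy y' hy' i
    induction i with
    | zero =>
      intro j _ hj h
      rcases Nat.eq_zero_or_pos j with h0 | h0
      · subst h0; exact ⟨rfl, h⟩
      · exfalso
        obtain ⟨m, rfl⟩ := Nat.exists_eq_succ_of_ne_zero h0.ne'
        rw [Function.iterate_succ_apply'] at h
        have := hY (φ^[m] y') (hj m (Nat.lt_succ_self m))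
        rw [← h] at this
        exact this hy
    | succ i ih =>
      intro j hi hj h
      rcases Nat.eq_zero_or_pos j with h0 | h0
      · exfalso
        subst h0
        rw [Function.iterate_succ_apply'] at h
        have := hY (φ^[i] y) (hi i (Nat.lt_succ_self i))
        rw [h] at this
        exact this hy'
      · obtain ⟨m, rfl⟩ := Nat.exists_eq_succ_of_ne_zero h0.ne'
        rw [Function.iterate_succ_apply', Function.iterate_succ_apply'] at h
        have h1 := hinj _ (hi i (Nat.lt_succ_self i)) _ (hj m (Nat.lt_succ_self m)) h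
        have h2 := ih m (fun k hk => hi k (by omega)) (fun k hk => hj k (by omega)) h1
        exact ⟨by rw [h2.1], h2.2⟩
  have hex : ∀ y ∈ Y, ∃ r, φ^[r] y ∈ S := by
    intro y hy
    by_contra hcon
    push Not at hcon
    have hinj2 : Function.Injective (fun i : ℕ => φ^[i] y) := by
      intro i j h
      exact (key y hy y hy i j (fun k _ => hcon k) (fun k _ => hcon k) h).1
    exact not_injective_infinite_finite _ hinj2
  let r : P → ℕ := fun y => if h : ∃ r, φ^[r] y ∈ S then Nat.find h else 0
  have hr1 : ∀ y ∈ Y, φ^[r y] y ∈ S := by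
    intro y hy
    simp only [r]; rw [dif_pos (hex y hy)]; exact Nat.find_spec (hex y hy)
  have hr2 : ∀ y ∈ Y, ∀ k < r y, φ^[k] y ∉ S := by
    intro y hy k hk
    simp only [r] at hk; rw [dif_pos (hex y hy)] at hk
    exact Nat.find_min (hex y hy) hk
  let path : P → List P := fun y => ((List.range (r y)).map (fun i => φ^[i + 1] y)).reverse
  have hfull : ∀ y, path y ++ [y] = ((List.range (r y + 1)).map (fun i => φ^[i] y)).reverse := by
    intro y
    simp only [path]
    rw [List.range_succ_eq_map, List.map_cons, List.reverse_cons, List.map_map]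
    rfl
  have hmem : ∀ y q, q ∈ path y ++ [y] → ∃ i ≤ r y, q = φ^[i] y := by
    intro y q hq
    rw [hfull, List.mem_reverse, List.mem_map] at hq
    obtain ⟨i, hi, rfl⟩ := hq
    rw [List.mem_range] at hi
    exact ⟨i, by omega, rfl⟩
  refine ⟨path, fun y hy => ⟨⟨φ^[r y] y, hr1 y hy, ?_⟩, ?_, ?_, ?_⟩, ?_⟩
  · rw [hfull, List.head?_reverse, List.getLast?_map, List.range_succ, List.getLast?_append]
    simp
  · rw [hfull, List.isChain_reverse, List.isChain_map]
    rw [List.isChain_iff_forall_rel_of_append_cons_cons]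
    intro a b l1 l2 hl
    have hab : b = a + 1 ∧ a < r y := by
      have hlen := congrArg List.length hl
      simp at hlen
      have ha : (List.range (r y + 1))[l1.length]? = some a := by rw [hl]; simp
      have hb : (List.range (r y + 1))[l1.length + 1]? = some b := by
        rw [hl]; simp [List.getElem?_append_right]
      rw [List.getElem?_range (by omega)] at ha
      rw [List.getElem?_range (by omega)] at hb
      simp at ha hb
      omega
    obtain ⟨rfl, ha⟩ := hab
    rcases hE _ (hr2 y hy a ha) with h | h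
    · exfalso
      have h1 : φ^[a + 1] y = φ^[a] y := by rw [Function.iterate_succ_apply']; exact h
      have := key y hy y hy (a + 1) a (fun k hk => hr2 y hy k (by omega))
        (fun k hk => hr2 y hy k (by omega)) h1
      omega
    · show E (φ^[a + 1] y) (φ^[a] y)
      rw [Function.iterate_succ_apply']; exact h
  · rw [hfull, List.nodup_reverse]
    refine List.Nodup.map_on ?_ List.nodup_range
    intro i hi j hj h
    rw [List.mem_range] at hi hj
    exact (key y hy y hy i j (fun k hk => hr2 y hy k (by omega))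
        (fun k hk => hr2 y hy k (by omega)) h).1
  · intro q hq hqY
    simp only [path, List.mem_reverse, List.mem_map, List.mem_range] at hq
    obtain ⟨i, hi, rfl⟩ := hq
    rw [Function.iterate_succ_apply'] at hqY
    exact hY _ (hr2 y hy i hi) hqY
  · intro y hy y' hy' hne q hq hq'
    obtain ⟨i, hi, rfl⟩ := hmem y q hq
    obtain ⟨j, hj, h⟩ := hmem y' _ hq'
    exact hne (key y hy y' hy' i j (fun k hk => hr2 y hy k (by omega))
        (fun k hk => hr2 y' hy' k (by omega)) h).2

end Pool.Agent.Hag
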