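import Mathlib

/-!
# The lower bound
-/

set_option autoImplicit false

open Finset

namespace Pool.Agent.Hag

theorem countP_chain {α : Type} (p : α → Bool) : ∀ l : List α,
    l.IsChain (fun x y => ¬ (p x = true ∧ p y = true)) →
      l.countP p ≤ l.countP (fun x => !p x) + 1 ∧
      (∀ x l', l = x :: l' → p x = false → l.countP p ≤ l.countP (fun x => !p x)) := by
  intro l
  induction l with
  | nil => intro _; simp
  | cons x l ih =>
    intro h
    have hl : l.IsChain (fun x y => ¬ (p x = true ∧ p y = true)) := h.tail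
    obtain ⟨ih1, ih2⟩ := ih hl
    cases hx : p x with
    | false =>
      have e1 : (x :: l).countP p = l.countP p := by simp [hx]
      have e2 : (x :: l).countP (fun x => !p x) = l.countP (fun x => !p x) + 1 := by
        simp [hx]
      refine ⟨by omega, ?_⟩
      intro x' l' hxl hx'
      omega
    | true =>
      have e1 : (x :: l).countP p = l.countP p + 1 := by simp [hx]
      have e2 : (x :: l).countP (fun x => !p x) = l.countP (fun x => !p x) := by
        simp [hx]
      refine ⟨?_, ?_⟩
      · rcases l with _ | ⟨y, l⟩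
        · simp [hx]
        · have hy : p y = false := by
            have := h.rel
            simpa [hx] using this
          have := ih2 y l rfl hy
          omega
      · intro x' l' hxl hx'
        rw [List.cons.injEq] at hxl
        rw [← hxl.1, hx] at hx'
        cases hx'

/-- A complete graph joined to an independent set. -/
def joinG (m t : ℕ) : SimpleGraph (Fin m ⊕ Fin t) where
  Adj p q := p ≠ q ∧ ¬ (p.isRight = true ∧ q.isRight = true)
  symm := ⟨fun _ _ h => ⟨h.1.symm, fun h' => h.2 ⟨h'.2, h'.1⟩⟩⟩
  loopless := ⟨fun _ h => h.1 rfl⟩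

theorem joinG_conn (m t : ℕ) (X : Finset (Fin m ⊕ Fin t)) (hX : X.card < m) :
    ((joinG m t).induce ((↑X : Set (Fin m ⊕ Fin t))ᶜ)).Connected := by
  classical
  obtain ⟨i, hi⟩ : ∃ i : Fin m, Sum.inl i ∉ X := by
    by_contra hcon
    push Not at hcon
    have : (Finset.univ : Finset (Fin m)).map ⟨Sum.inl, Sum.inl_injective⟩ ⊆ X := by
      intro x hx
      rw [Finset.mem_map] at hx
      obtain ⟨i, _, rfl⟩ := hx
      exact hcon i
    have := Finset.card_le_card this
    rw [Finset.card_map, Finset.card_univ, Fintype.card_fin] at this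
    omega
  let v0 : ((↑X : Set (Fin m ⊕ Fin t))ᶜ : Set (Fin m ⊕ Fin t)) :=
    ⟨Sum.inl i, fun h => hi (Finset.mem_coe.1 h)⟩
  have hreach : ∀ x, ((joinG m t).induce ((↑X : Set (Fin m ⊕ Fin t))ᶜ)).Reachable x v0 := by
    intro x
    by_cases hx : x = v0
    · rw [hx]
    · apply SimpleGraph.Adj.reachable
      show (joinG m t).Adj x.1 v0.1
      refine ⟨fun h => hx (Subtype.ext h), ?_⟩
      rintro ⟨_, h⟩
      simp [v0] at h
  have : Nonempty ((↑X : Set (Fin m ⊕ Fin t))ᶜ : Set (Fin m ⊕ Fin t)) := ⟨v0⟩
  exact ⟨fun x y => (hreach x).trans (hreach y).symm⟩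

theorem lower (t k : ℕ) (ht : 2 ≤ t) (hk : 1 ≤ k) :
    ∃ (V : Type) (G : SimpleGraph V), Finite V ∧
      (k * (t - 1) ≤ Nat.card V ∧
        ∀ X : Finset V, X.card < k * (t - 1) - 1 → (G.induce ((↑X : Set V)ᶜ)).Connected) ∧
      ¬ (max t (k + 1) ≤ Nat.card V ∧
        ∀ A : Finset V, A.card = t →
          ∃ (a b : Fin k → V) (P : (i : Fin k) → G.Walk (a i) (b i)),
            (∀ i, (P i).IsPath ∧ ∀ x ∈ A, x ∈ (P i).support) ∧
            (∀ i j, i ≠ j →
              (∀ x, x ∈ (P i).support → x ∈ (P j).support → x ∈ A) ∧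
              (∀ e, e ∈ (P i).edges → e ∉ (P j).edges))) := by
  classical
  set m := k * (t - 1) - 1 with hm
  have hpos : 1 ≤ k * (t - 1) := Nat.mul_pos hk (by omega)
  refine ⟨Fin m ⊕ Fin t, joinG m t, inferInstance, ⟨?_, fun X hX => joinG_conn m t X hX⟩, ?_⟩
  · rw [Nat.card_eq_fintype_card, Fintype.card_sum, Fintype.card_fin, Fintype.card_fin]
    omega
  · rintro ⟨_, h⟩
    set A : Finset (Fin m ⊕ Fin t) := Finset.univ.map ⟨Sum.inr, Sum.inr_injective⟩ with hA
    have hAmem : ∀ x, x ∈ A ↔ x.isRight = true := by
      intro x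
      rcases x with x | x <;> simp [hA]
    obtain ⟨a, b, P, hP1, hP2⟩ := h A (by rw [hA, Finset.card_map, Finset.card_univ, Fintype.card_fin])
    let N : Fin k → Finset (Fin m ⊕ Fin t) := fun i =>
      (P i).support.toFinset.filter (fun x => !x.isRight)
    have hN : ∀ i, t - 1 ≤ (N i).card := by
      intro i
      have hch : (P i).support.IsChain
          (fun x y => ¬ (Sum.isRight x = true ∧ Sum.isRight y = true)) :=
        (P i).isChain_adj_support.imp (fun x y hxy => hxy.2)
      have h1 := (countP_chain _ _ hch).1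
      have hnd := (hP1 i).1.support_nodup
      have h2 : t ≤ (P i).support.countP Sum.isRight := by
        rw [List.countP_eq_length_filter, ← List.toFinset_card_of_nodup (hnd.filter _)]
        calc t = A.card := by rw [hA, Finset.card_map, Finset.card_univ, Fintype.card_fin]
          _ ≤ _ := by
            apply Finset.card_le_card
            intro x hx
            rw [List.mem_toFinset, List.mem_filter]
            exact ⟨(hP1 i).2 x hx, (hAmem x).1 hx⟩
      have h3 : (P i).support.countP (fun x => !Sum.isRight x) = (N i).card := by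
        rw [List.countP_eq_length_filter, ← List.toFinset_card_of_nodup (hnd.filter _)]
        congr 1
        ext x
        simp [N]
      omega
    have hdis : ∀ i ∈ (Finset.univ : Finset (Fin k)), ∀ j ∈ (Finset.univ : Finset (Fin k)), i ≠ j →
        Disjoint (N i) (N j) := by
      intro i _ j _ hij
      rw [Finset.disjoint_left]
      intro x hx hx'
      simp only [N, Finset.mem_filter, List.mem_toFinset] at hx hx'
      have := (hP2 i j hij).1 x hx.1 hx'.1
      rw [hAmem] at this
      rw [this] at hx
      simp at hx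
    have hsub : (Finset.univ.biUnion N) ⊆
        (Finset.univ : Finset (Fin m)).map ⟨Sum.inl, Sum.inl_injective⟩ := by
      intro x hx
      rw [Finset.mem_biUnion] at hx
      obtain ⟨i, _, hi⟩ := hx
      simp only [N, Finset.mem_filter] at hi
      rcases x with x | x
      · simp
      · simp at hi
    have h4 := Finset.card_le_card hsub
    rw [Finset.card_biUnion hdis, Finset.card_map, Finset.card_univ, Fintype.card_fin] at h4
    have h5 : k * (t - 1) ≤ ∑ i : Fin k, (N i).card := by
      calc k * (t - 1) = ∑ _i : Fin k, (t - 1) := by simp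
        _ ≤ _ := Finset.sum_le_sum fun i _ => hN i
    omega

end Pool.Agent.Hag
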