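import Pool.Agent.LibHag.Lower
import Pool.Agent.LibHag.Five

/-!
# From the game to Hager's statement
-/

set_option autoImplicit false

open Finset

namespace Pool.Agent.Hag

/-- If the insertion game on `t` terminals can be won, then every `k (t - 1)`-connected graph is
`(t, k)`-path-connected. -/
theorem upper_of_game (t k c : ℕ) (ht : 2 ≤ t) (hk : 1 ≤ k) (htc : t ≤ c + 1) (hkc : k ≤ c)
    (hgame : ∀ (U : Type) [Fintype U] [DecidableEq U] (G : SimpleGraph U) (A : Finset U),
      Conn G A c → A.card = t → ∃ M, Real G A M ∧ Decomp A k (t - 1) M)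
    (V : Type) (G : SimpleGraph V) (hV : Finite V)
    (h : c + 1 ≤ Nat.card V ∧
        ∀ X : Finset V, X.card < c → (G.induce ((↑X : Set V)ᶜ)).Connected) :
    (max t (k + 1) ≤ Nat.card V ∧
        ∀ A : Finset V, A.card = t →
          ∃ (a b : Fin k → V) (P : (i : Fin k) → G.Walk (a i) (b i)),
            (∀ i, (P i).IsPath ∧ ∀ x ∈ A, x ∈ (P i).support) ∧
            (∀ i j, i ≠ j →
              (∀ x, x ∈ (P i).support → x ∈ (P j).support → x ∈ A) ∧
              (∀ e, e ∈ (P i).edges → e ∉ (P j).edges))) := by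
  classical
  have : Fintype V := Fintype.ofFinite V
  obtain ⟨h1, h2⟩ := h
  refine ⟨?_, ?_⟩
  · apply max_le <;> omega
  · intro A hA
    rw [Nat.card_eq_fintype_card] at h1
    have hconn := sub_conn G c h1 h2 A
    obtain ⟨M, hR, hD⟩ := hgame (V ⊕ Sym2 V) (Sub G) (A.map ⟨Sum.inl, Sum.inl_injective⟩) hconn
      (by rw [Finset.card_map, hA])
    exact paths_of_decomp G A k (t - 1) (by omega) M hR hD

end Pool.Agent.Hag
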