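import Pool.Agent.LibHag.Sys

/-!
# The pinching lemma
-/

set_option autoImplicit false

open Finset

namespace Pool.Agent.Hag

variable {U : Type} [Fintype U] [DecidableEq U]

/-- The vertices of `A` are `c`-linked: fewer than `c` vertices never separate two of them. -/
def Conn (G : SimpleGraph U) (A : Finset U) (c : ℕ) : Prop :=
  ∀ X : Finset U, X.card < c → ∀ a ∈ A, ∀ b ∈ A, a ≠ b → a ∉ X → b ∉ X →
    ∃ l : List U, (a :: l ++ [b]).IsChain G.Adj ∧ ∀ w ∈ l, w ∉ X

omit [Fintype U] in
/-- Cut a walk at the last visit of its first vertex. -/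
theorem last_visit {G : SimpleGraph U} {a b : U} (hab : a ≠ b) : ∀ l : List U,
    (a :: l ++ [b]).IsChain G.Adj → ∃ l', (a :: l' ++ [b]).IsChain G.Adj ∧ (∀ w ∈ l', w ∈ l) ∧
      a ∉ l' := by
  intro l
  induction hn : l.length using Nat.strong_induction_on generalizing l with
  | _ n ih =>
    intro hc
    by_cases ha : a ∈ l
    · obtain ⟨l1, l2, rfl⟩ := List.append_of_mem ha
      have hc2 : ((a :: l1) ++ a :: (l2 ++ [b])).IsChain G.Adj := by simpa using hc
      rw [List.isChain_split] at hc2
      obtain ⟨l', h1, h2, h3⟩ := ih l2.length (by rw [← hn]; simp; omega) l2 rfl (by simpa using hc2.2)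
      exact ⟨l', h1, fun w hw => by simp [h2 w hw], h3⟩
    · exact ⟨l, hc, fun w hw => hw, ha⟩

omit [Fintype U] in
/-- First element of a list satisfying a predicate. -/
theorem first_hit {α : Type} (p : α → Prop) [DecidablePred p] : ∀ l : List α, (∃ a ∈ l, p a) →
    ∃ l1 a l2, l = l1 ++ a :: l2 ∧ p a ∧ ∀ b ∈ l1, ¬ p b := by
  intro l
  induction l with
  | nil => rintro ⟨a, h, _⟩; simp at h
  | cons x l ih =>
    rintro ⟨a, ha, hpa⟩
    by_cases hx : p x
    · exact ⟨[], x, l, rfl, hx, by simp⟩
    · rcases List.mem_cons.1 ha with rfl | h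
      · exact absurd hpa hx
      · obtain ⟨l1, b, l2, h1, h2, h3⟩ := ih ⟨a, h, hpa⟩
        refine ⟨x :: l1, b, l2, by rw [h1]; rfl, h2, ?_⟩
        intro c hc
        rcases List.mem_cons.1 hc with rfl | h
        · exact hx
        · exact h3 c h

omit [Fintype U] in
/-- Half of a pinched link. -/
theorem half {G : SimpleGraph U} {B I0 : Finset U} {x y v : U} {l : List U}
    (L : IsLink G B x y l) (hvB : v ∈ B) (hvx : x ≠ v) (hIB : ∀ w ∈ I0, w ∉ B)
    (hIl : ∀ w ∈ I0, w ∉ l) {F1 F2 : List U} {a : U} (h : x :: l ++ [y] = F1 ++ a :: F2)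
    (hF2 : F2 ≠ []) {st : List U} (hst : IsStem G I0 v a st) :
    ∃ m, IsLink G B x v m ∧ ∀ w ∈ m, (w ∈ l ∧ w ∈ F1 ++ [a]) ∨ w ∈ st := by
  have hfull : (x :: l ++ [y]).Nodup := by
    have h1 := L.nodup
    rw [List.cons_append, List.nodup_cons, List.nodup_append]
    refine ⟨?_, h1, List.nodup_singleton _, ?_⟩
    · intro hm
      rw [List.mem_append, List.mem_singleton] at hm
      rcases hm with hm | hm
      · exact L.mem x hm L.hx
      · exact L.ne hm
    · intro b hb c hc hbc
      rw [List.mem_singleton] at hc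
      exact L.mem b hb (hbc ▸ hc ▸ L.hy)
  -- the elements of the initial segment except `x` are inner vertices
  obtain ⟨m, hm⟩ : ∃ m, F1 ++ [a] = x :: m := by
    rcases F1 with _ | ⟨z, F1⟩
    · refine ⟨[], ?_⟩
      have := (List.cons.inj h).1
      simp [this]
    · refine ⟨F1 ++ [a], ?_⟩
      have := (List.cons.inj h).1
      simp [this]
  have hx : x :: l ++ [y] = x :: m ++ F2 := by
    rw [h, ← hm]; simp
  have hml : ∀ w ∈ m, w ∈ l := by
    obtain ⟨F2', z, hz⟩ := List.eq_nil_or_concat F2 |>.resolve_left hF2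
    intro w hw
    rw [List.concat_eq_append] at hz
    rw [hz] at hx
    have h2 : l ++ [y] = (m ++ F2') ++ [z] := by
      have h2 : l ++ [y] = m ++ (F2' ++ [z]) := (List.cons.inj hx).2
      rw [h2, List.append_assoc]
    have h3 := (List.append_inj' h2 rfl).1
    rw [h3]; simp [hw]
  have hmnd : m.Nodup := by
    rw [hx] at hfull
    have : (m ++ F2).Nodup := (List.nodup_cons.1 hfull).2
    exact (List.nodup_append.1 this).1
  have hch1 : (F1 ++ [a]).IsChain G.Adj := by
    have := L.chain
    rw [h] at this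
    have h2 : (F1 ++ [a] ++ F2).IsChain G.Adj := by simpa using this
    exact h2.left_of_append
  have hch2 : ([a] ++ (st.reverse ++ [v])).IsChain G.Adj := by
    have h1 : ([a] ++ (st.reverse ++ [v])) = (v :: st ++ [a]).reverse := by simp
    rw [h1, List.isChain_reverse]
    exact hst.chain.imp (fun a b hab => hab.symm)
  refine ⟨m ++ st.reverse, ⟨L.hx, hvB, hvx, ?_, ?_, ?_⟩, ?_⟩
  · intro w hw
    rw [List.mem_append, List.mem_reverse] at hw
    rcases hw with hw | hw
    · exact L.mem w (hml w hw)
    · exact hIB w (hst.mem w hw)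
  · rw [List.nodup_append]
    refine ⟨hmnd, List.nodup_reverse.2 hst.nodup, ?_⟩
    intro b hb c hc hbc
    rw [List.mem_reverse] at hc
    subst hbc
    exact hIl b (hst.mem b hc) (hml b hb)
  · have h3 := hch1.append_overlap hch2 (by simp)
    have h4 : x :: (m ++ st.reverse) ++ [v] = F1 ++ [a] ++ (st.reverse ++ [v]) := by
      rw [hm]; simp
    rw [h4]; exact h3
  · intro w hw
    rw [List.mem_append, List.mem_reverse] at hw
    rcases hw with hw | hw
    · left
      refine ⟨hml w hw, ?_⟩
      rw [hm]; simp [hw]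
    · right; exact hw

omit [Fintype U] in
/-- Two targets on the same link. -/
theorem splice {G : SimpleGraph U} {B I0 : Finset U} {x y v : U} {l : List U}
    (L : IsLink G B x y l) (hvB : v ∈ B) (hvx : x ≠ v) (hvy : y ≠ v) (hIB : ∀ w ∈ I0, w ∉ B)
    (hIl : ∀ w ∈ I0, w ∉ l) {F1 G1 G2 : List U} {a b : U}
    (h : x :: l ++ [y] = F1 ++ a :: (G1 ++ b :: G2)) {st st' : List U} (hst : IsStem G I0 v a st)
    (hst' : IsStem G I0 v b st') (hdis : List.Disjoint st st') :
    ∃ m1 m2, IsLink G B x v m1 ∧ IsLink G B y v m2 ∧ List.Disjoint m1 m2 ∧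
      (∀ w ∈ m1, w ∈ l ∨ w ∈ st ∨ w ∈ st') ∧ (∀ w ∈ m2, w ∈ l ∨ w ∈ st ∨ w ∈ st') := by
  obtain ⟨m1, hm1, hm1'⟩ := half L hvB hvx hIB hIl h (by simp) hst
  have h2 : y :: l.reverse ++ [x] = G2.reverse ++ b :: (G1.reverse ++ a :: F1.reverse) := by
    have : (x :: l ++ [y]).reverse = (F1 ++ a :: (G1 ++ b :: G2)).reverse := by rw [h]
    simpa using this
  obtain ⟨m2, hm2, hm2'⟩ := half L.symm hvB hvy hIB (fun w hw => by
    rw [List.mem_reverse]; exact hIl w hw) h2 (by simp) hst'
  refine ⟨m1, m2, hm1, hm2, ?_, ?_, ?_⟩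
  · intro w hw hw'
    have hfull : (x :: l ++ [y]).Nodup := by
      have h1 := L.nodup
      rw [List.cons_append, List.nodup_cons, List.nodup_append]
      refine ⟨?_, h1, List.nodup_singleton _, ?_⟩
      · intro hm
        rw [List.mem_append, List.mem_singleton] at hm
        rcases hm with hm | hm
        · exact L.mem x hm L.hx
        · exact L.ne hm
      · intro b hb c hc hbc
        rw [List.mem_singleton] at hc
        exact L.mem b hb (hbc ▸ hc ▸ L.hy)
    rcases hm1' w hw with ⟨h3, h4⟩ | h3
    · rcases hm2' w hw' with ⟨h5, h6⟩ | h5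
      · have e : x :: l ++ [y] = (F1 ++ [a]) ++ (G1 ++ b :: G2) := by rw [h]; simp
        rw [e, List.nodup_append] at hfull
        refine hfull.2.2 w h4 w ?_ rfl
        simp only [List.mem_append, List.mem_reverse, List.mem_singleton] at h6
        simp only [List.mem_append, List.mem_cons]
        tauto
      · exact hIl w (hst'.mem w h5) h3
    · rcases hm2' w hw' with ⟨h5, h6⟩ | h5
      · exact hIl w (hst.mem w h3) (by simpa using h5)
      · exact hdis h3 h5
  · intro w hw
    rcases hm1' w hw with ⟨h3, _⟩ | h3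
    · exact Or.inl h3
    · exact Or.inr (Or.inl h3)
  · intro w hw
    rcases hm2' w hw with ⟨h3, _⟩ | h3
    · left; simpa using h3
    · exact Or.inr (Or.inr h3)

/-- **Pinching lemma.** Let `M` be a system of links of `B` with `|M| < c` and let `v ∈ B`. Let `Z`
be a set of terminals different from `v` such that every terminal different from `v` and not in `Z`
is an end of some link, and assume that `Z` is nonempty or some link avoids `v`. Then a link `uw`
avoiding `v` can be replaced by two links `uv`, `vw`, or a link from `v` to a vertex of `Z` can be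
added. -/
theorem pinch {G : SimpleGraph U} {A B : Finset U} {c : ℕ} (hA : Conn G A c)
    (hB : B ⊆ A) {M : Multiset (Sym2 U)} (hM : Real G B M)
    (hc : M.card < c) {v : U} (hv : v ∈ B) (Z : Finset U) (hZB : Z ⊆ B) (hvZ : v ∉ Z)
    (hcov : ∀ x ∈ B, x ≠ v → x ∉ Z → ∃ e ∈ M, x ∈ e)
    (hne : Z.Nonempty ∨ ∃ e ∈ M, v ∉ e) :
    (∃ u w M0, u ≠ v ∧ w ≠ v ∧ M = s(u, w) ::ₘ M0 ∧ Real G B (s(u, v) ::ₘ s(w, v) ::ₘ M0)) ∨
    (∃ x ∈ Z, Real G B (s(x, v) ::ₘ M)) := by
  classical
  obtain ⟨ι, _, S, rfl⟩ := hM
  set m := Fintype.card ι with hm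
  have hcard : ((Finset.univ : Finset ι).val.map (fun i => s(S.x i, S.y i))).card = m := by
    rw [Multiset.card_map, Finset.card_val, Finset.card_univ]
  rw [hcard] at hc
  let on : ι → Prop := fun i => S.x i = v ∨ S.y i = v
  let T1 : Finset U := (Finset.univ.filter (fun i => ¬ on i)).biUnion (fun i => (S.l i).toFinset)
  have hT1 : ∀ w, w ∈ T1 ↔ ∃ i, ¬ on i ∧ w ∈ S.l i := by
    intro w; simp [T1]
  have hT1B : ∀ w ∈ T1, w ∉ B := by
    intro w hw
    rw [hT1] at hw
    obtain ⟨i, _, hi⟩ := hw
    exact (S.link i).mem w hi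
  let I0 : Finset U := Finset.univ.filter (fun w => w ∉ B ∧ w ∉ T1)
  have hI0 : ∀ w, w ∈ I0 ↔ w ∉ B ∧ w ∉ T1 := by intro w; simp [I0]
  let ev : ι → Bool → U := fun i b => if b then S.y i else S.x i
  let valid : (ι × Bool) ⊕ U ⊕ U → Prop := fun q => match q with
    | Sum.inl (i, b) => ev i b ≠ v
    | Sum.inr (Sum.inl w) => w ∈ T1
    | Sum.inr (Sum.inr x) => x ∈ Z
  let T := {q : (ι × Bool) ⊕ U ⊕ U // valid q}
  let tv : T → U := fun q => match q.1 with
    | Sum.inl (i, b) => ev i b
    | Sum.inr (Sum.inl w) => w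
    | Sum.inr (Sum.inr x) => x
  have hevB : ∀ i b, ev i b ∈ B := by
    intro i b
    rcases b with _ | _
    · exact (S.link i).hx
    · exact (S.link i).hy
  -- the side of a link at `v` which is not `v`
  have hother : ∀ i, on i → ∃ b, ev i b ≠ v ∧ ev i (!b) = v := by
    intro i hi
    rcases hi with h | h
    · exact ⟨true, fun h2 => (S.link i).ne (h.trans h2.symm), h⟩
    · exact ⟨false, fun h2 => (S.link i).ne (h2.trans h.symm), h⟩
  let sd : ι → Bool := fun i => if ev i true ≠ v then true else false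
  have hsd : ∀ i, ev i (sd i) ≠ v := by
    intro i
    simp only [sd]
    by_cases h : ev i true ≠ v
    · rw [if_pos h]; exact h
    · rw [if_neg h]
      push Not at h
      intro h2
      exact (S.link i).ne (h2.trans h.symm)
  have hsd' : ∀ i, on i → ev i (!(sd i)) = v := by
    intro i hi
    obtain ⟨b, hb1, hb2⟩ := hother i hi
    have : sd i = b := by
      by_contra hne
      have : sd i = !b := by
        rcases hh : sd i with _ | _ <;> rcases b with _ | _ <;> simp_all
      exact hsd i (this ▸ hb2)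
    rw [this]; exact hb2
  let tgt : ι → T := fun i => ⟨Sum.inl (i, sd i), hsd i⟩
  have htgt_inj : Function.Injective tgt := by
    intro i j h
    have := congrArg Subtype.val h
    simp only [tgt, Sum.inl.injEq, Prod.mk.injEq] at this
    exact this.1
  let Used : Finset T := (Finset.univ.filter on).image tgt
  -- given stems
  let stem0 : T → List U := fun q => match q.1 with
    | Sum.inl (i, b) => if b then S.l i else (S.l i).reverse
    | _ => []
  have hlI : ∀ i, on i → ∀ w ∈ S.l i, w ∈ I0 := by
    intro i hi w hw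
    rw [hI0]
    refine ⟨(S.link i).mem w hw, ?_⟩
    rw [hT1]
    rintro ⟨j, hj, hwj⟩
    have hij : i ≠ j := fun h => hj (h ▸ hi)
    exact S.disj i j hij hw hwj
  have hst0 : ∀ q ∈ Used, IsStem G I0 v (tv q) (stem0 q) := by
    intro q hq
    rw [Finset.mem_image] at hq
    obtain ⟨i, hi, rfl⟩ := hq
    rw [Finset.mem_filter] at hi
    have h2 := hsd' i hi.2
    show IsStem G I0 v (ev i (sd i)) (if sd i then S.l i else (S.l i).reverse)
    rcases hh : sd i with _ | _
    · rw [hh] at h2
      have hy : S.y i = v := h2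
      have hl := (S.link i).symm
      refine ⟨?_, ?_, ?_⟩
      · intro w hw
        exact hlI i hi.2 w (by simpa using hw)
      · simpa using (S.link i).nodup
      · rw [← hy]
        simpa [ev] using hl.chain
    · rw [hh] at h2
      have hx : S.x i = v := h2
      have hl := (S.link i)
      refine ⟨?_, ?_, ?_⟩
      · intro w hw
        exact hlI i hi.2 w (by simpa using hw)
      · simpa using (S.link i).nodup
      · rw [← hx]
        simpa [ev] using hl.chain
  have hdis0 : ∀ q ∈ Used, ∀ q' ∈ Used, q ≠ q' → List.Disjoint (stem0 q) (stem0 q') := by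
    intro q hq q' hq' hne w hw hw'
    rw [Finset.mem_image] at hq hq'
    obtain ⟨i, hi, rfl⟩ := hq
    obtain ⟨j, hj, rfl⟩ := hq'
    have hij : i ≠ j := fun h => hne (by rw [h])
    have e1 : w ∈ S.l i := by
      have : w ∈ (if sd i then S.l i else (S.l i).reverse) := hw
      rcases hh : sd i with _ | _ <;> rw [hh] at this <;> simpa using this
    have e2 : w ∈ S.l j := by
      have : w ∈ (if sd j then S.l j else (S.l j).reverse) := hw'
      rcases hh : sd j with _ | _ <;> rw [hh] at this <;> simpa using this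
    exact S.disj i j hij e1 e2
  -- every terminal `≠ v` is the vertex of a target
  have hterm : ∀ x ∈ B, x ≠ v → ∃ q : T, tv q = x := by
    intro x hx hxv
    by_cases hxZ : x ∈ Z
    · exact ⟨⟨Sum.inr (Sum.inr x), hxZ⟩, rfl⟩
    · obtain ⟨e, he, hxe⟩ := hcov x hx hxv hxZ
      rw [Multiset.mem_map] at he
      obtain ⟨i, _, rfl⟩ := he
      rw [Sym2.mem_iff] at hxe
      rcases hxe with h | h
      · exact ⟨⟨Sum.inl (i, false), by show S.x i ≠ v; rw [← h]; exact hxv⟩, h.symm⟩
      · exact ⟨⟨Sum.inl (i, true), by show S.y i ≠ v; rw [← h]; exact hxv⟩, h.symm⟩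
  -- one more terminal target
  have hextra : ∃ q : T, tv q ∈ B ∧ ∀ i, q ≠ tgt i := by
    rcases hne with ⟨x, hx⟩ | ⟨e, he, hve⟩
    · exact ⟨⟨Sum.inr (Sum.inr x), hx⟩, hZB hx, fun i h => by
        have := congrArg Subtype.val h; simp [tgt] at this⟩
    · rw [Multiset.mem_map] at he
      obtain ⟨i, _, rfl⟩ := he
      rw [Sym2.mem_iff, not_or] at hve
      have hval : ev i (!(sd i)) ≠ v := by
        rcases sd i with _ | _
        · exact fun h => hve.2 h.symm
        · exact fun h => hve.1 h.symm
      refine ⟨⟨Sum.inl (i, !(sd i)), hval⟩, hevB _ _, fun j h => ?_⟩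
      have := congrArg Subtype.val h
      simp only [tgt, Sum.inl.injEq, Prod.mk.injEq] at this
      obtain ⟨rfl, h2⟩ := this
      revert h2; cases sd i <;> simp
  obtain ⟨qe, hqeB, hqe⟩ := hextra
  have htvv : ∀ q : T, tv q ∈ B → tv q ≠ v := by
    rintro ⟨q, hq⟩ hB h
    rcases q with ⟨i, b⟩ | w | x
    · exact hq h
    · exact hT1B w hq hB
    · exact hvZ (h ▸ hq)
  have hsep : ∀ (X : Finset U) (Y : Finset T), X.card + Y.card < m + 1 → ∃ y ∉ Y, ∃ l : List U,
      (∀ w ∈ l, w ∈ I0 ∧ w ∉ X) ∧ (v :: l ++ [tv y]).IsChain G.Adj := by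
    intro X Y hXY
    let R : Finset U := B.filter (fun x => x ≠ v ∧ ∀ q : T, tv q = x → q ∈ Y)
    let TX : Finset U := T1.filter (fun w => ∃ h : w ∈ T1, (⟨Sum.inr (Sum.inl w), h⟩ : T) ∈ Y)
    have hcard2 : (R ∪ TX).card ≤ Y.card := by
      have hch : ∀ x ∈ R ∪ TX, ∃ q ∈ Y, tv q = x := by
        intro x hx
        rw [Finset.mem_union, Finset.mem_filter, Finset.mem_filter] at hx
        rcases hx with ⟨h1, h2, h3⟩ | ⟨h1, h2, h3⟩
        · obtain ⟨q, hq⟩ := hterm x h1 h2
          exact ⟨q, h3 q hq, hq⟩
        · exact ⟨_, h3, rfl⟩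
      calc (R ∪ TX).card ≤ (Y.image tv).card := Finset.card_le_card (fun x hx => by
            obtain ⟨q, hq, rfl⟩ := hch x hx
            exact Finset.mem_image_of_mem _ hq)
        _ ≤ Y.card := Finset.card_image_le
    have hRB : ∀ x, x ∈ R → x ∈ B ∧ x ≠ v := fun x hx => by
      have := (Finset.mem_filter.1 hx); exact ⟨this.1, this.2.1⟩
    have hTXT : ∀ x, x ∈ TX → x ∈ T1 := fun x hx => (Finset.mem_filter.1 hx).1
    set X' : Finset U := (X ∩ I0) ∪ (R ∪ TX) with hX'
    have hX'card : X'.card < c := by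
      have h1 : X'.card ≤ (X ∩ I0).card + (R ∪ TX).card := Finset.card_union_le _ _
      have h2 : (X ∩ I0).card ≤ X.card := Finset.card_le_card Finset.inter_subset_left
      omega
    -- some terminal is not in `R`
    have hy0 : ∃ y0 ∈ B, y0 ≠ v ∧ y0 ∉ R := by
      by_contra hcon
      push Not at hcon
      have hall : ∀ q : T, tv q ∈ B → q ∈ Y := by
        intro q hq
        have := hcon (tv q) hq (htvv q hq)
        rw [Finset.mem_filter] at this
        exact this.2.2 q rfl
      have hsub : insert qe (Finset.univ.image tgt) ⊆ Y := by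
        intro q hq
        rw [Finset.mem_insert, Finset.mem_image] at hq
        rcases hq with rfl | ⟨i, _, rfl⟩
        · exact hall _ hqeB
        · exact hall _ (hevB _ _)
      have h1 := Finset.card_le_card hsub
      rw [Finset.card_insert_of_notMem (by
        rw [Finset.mem_image]
        rintro ⟨i, _, h⟩
        exact hqe i h.symm), Finset.card_image_of_injective _ htgt_inj, Finset.card_univ] at h1
      omega
    obtain ⟨y0, hy0B, hy0v, hy0R⟩ := hy0
    have hIB : ∀ w ∈ I0, w ∉ B := fun w hw => ((hI0 w).1 hw).1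
    have hvX' : v ∉ X' := by
      rw [hX', Finset.mem_union, Finset.mem_inter, Finset.mem_union]
      rintro (⟨_, h⟩ | h | h)
      · exact hIB v h hv
      · exact (hRB v h).2 rfl
      · exact hT1B v (hTXT v h) hv
    have hy0X' : y0 ∉ X' := by
      rw [hX', Finset.mem_union, Finset.mem_inter, Finset.mem_union]
      rintro (⟨_, h⟩ | h | h)
      · exact hIB y0 h hy0B
      · exact hy0R h
      · exact hT1B y0 (hTXT y0 h) hy0B
    obtain ⟨l0, hl0c, hl0X⟩ := hA X' hX'card v (hB hv) y0 (hB hy0B) hy0v.symm hvX' hy0X'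
    obtain ⟨l1, hl1c, hl1l, hvl1⟩ := last_visit hy0v.symm l0 hl0c
    have hl1X : ∀ w ∈ l1, w ∉ X' := fun w hw => hl0X w (hl1l w hw)
    obtain ⟨l2, z, l3, h1, h2, h3⟩ := first_hit (fun w => w ∈ T1 ∨ w ∈ B) (l1 ++ [y0])
      ⟨y0, by simp, Or.inr hy0B⟩
    have hzX' : z ∉ X' := by
      have : z ∈ l1 ++ [y0] := by rw [h1]; simp
      rw [List.mem_append, List.mem_singleton] at this
      rcases this with h | h
      · exact hl1X z h
      · rw [h]; exact hy0X'
    have hzv : z ≠ v := by
      have : z ∈ l1 ++ [y0] := by rw [h1]; simp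
      rw [List.mem_append, List.mem_singleton] at this
      rcases this with h | h
      · exact fun h' => hvl1 (h' ▸ h)
      · rw [h]; exact hy0v
    have hl2 : ∀ w ∈ l2, w ∈ I0 ∧ w ∉ X := by
      intro w hw
      have hwI : w ∈ I0 := by
        rw [hI0]
        have := h3 w hw
        push Not at this
        exact ⟨this.2, this.1⟩
      refine ⟨hwI, fun hX => ?_⟩
      have hwl : w ∈ l1 ++ [y0] := by rw [h1]; simp [hw]
      rw [List.mem_append, List.mem_singleton] at hwl
      rcases hwl with h | h
      · apply hl1X w h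
        rw [hX', Finset.mem_union, Finset.mem_inter]
        exact Or.inl ⟨hX, hwI⟩
      · rw [h] at hwI; exact hIB y0 hwI hy0B
    have hch : (v :: l2 ++ [z]).IsChain G.Adj := by
      have : ((v :: l2 ++ [z]) ++ l3).IsChain G.Adj := by
        have e : (v :: l2 ++ [z]) ++ l3 = v :: l1 ++ [y0] := by
          simp only [List.cons_append, List.append_assoc, List.nil_append, h1]
        rw [e]; exact hl1c
      exact this.left_of_append
    rcases h2 with hz | hz
    · refine ⟨⟨Sum.inr (Sum.inl z), hz⟩, ?_, l2, hl2, hch⟩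
      intro hY
      apply hzX'
      rw [hX', Finset.mem_union, Finset.mem_union, Finset.mem_filter (s := T1)]
      exact Or.inr (Or.inr ⟨hz, hz, hY⟩)
    · have hzR : z ∉ R := by
        intro h
        apply hzX'
        rw [hX', Finset.mem_union, Finset.mem_union]
        exact Or.inr (Or.inl h)
      rw [Finset.mem_filter] at hzR
      push Not at hzR
      obtain ⟨q, hq1, hq2⟩ := hzR hz hzv
      refine ⟨q, hq2, l2, hl2, ?_⟩
      rw [hq1]; exact hch
  obtain ⟨Y, stem, hUY, hYc, hYs, hYd⟩ := fan G I0 v tv Used stem0 hst0 hdis0 (m + 1) hsep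
  have hIB : ∀ w ∈ I0, w ∉ B := fun w hw => ((hI0 w).1 hw).1
  have hind' : ∀ q : T, tv q ∈ B → ∀ l, IsStem G I0 v (tv q) l → IsLink G B (tv q) v l.reverse := by
    intro q hq l hl
    have : IsLink G B v (tv q) l :=
      ⟨hv, hq, (htvv q hq).symm, fun w hw => hIB w (hl.mem w hw), hl.nodup, hl.chain⟩
    exact this.symm
  -- new links for the old links at `v`
  let nl : ι → List U := fun i => if on i then (stem (tgt i)).reverse else S.l i
  let nx : ι → U := fun i => if on i then ev i (sd i) else S.x i
  let ny : ι → U := fun i => if on i then v else S.y i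
  have hused : ∀ i, on i → tgt i ∈ Y := fun i hi =>
    hUY (Finset.mem_image_of_mem _ (by simp [hi]))
  have hnlink : ∀ i, IsLink G B (nx i) (ny i) (nl i) := by
    intro i
    by_cases hi : on i
    · simp only [nx, ny, nl, if_pos hi]
      exact hind' (tgt i) (hevB _ _) _ (hYs _ (hused i hi))
    · simp only [nx, ny, nl, if_neg hi]
      exact S.link i
  have hnsym : ∀ i, s(nx i, ny i) = s(S.x i, S.y i) := by
    intro i
    by_cases hi : on i
    · simp only [nx, ny, if_pos hi]
      have h2 := hsd' i hi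
      rcases hh : sd i with _ | _
      · rw [hh] at h2
        have : S.y i = v := h2
        rw [this]; rfl
      · rw [hh] at h2
        have : S.x i = v := h2
        rw [this]
        exact Sym2.eq_swap
    · simp only [nx, ny, if_neg hi]
  -- non-`v` links are disjoint from stems
  have hstT1 : ∀ q ∈ Y, ∀ w ∈ stem q, w ∉ T1 := fun q hq w hw => ((hI0 w).1 ((hYs q hq).mem w hw)).2
  have hndisj : ∀ i j, i ≠ j → List.Disjoint (nl i) (nl j) := by
    intro i j hij w hw hw'
    by_cases hi : on i
    · by_cases hj : on j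
      · simp only [nl, if_pos hi, if_pos hj, List.mem_reverse] at hw hw'
        exact hYd _ (hused i hi) _ (hused j hj) (fun h => hij (htgt_inj h)) hw hw'
      · simp only [nl, if_pos hi, if_neg hj, List.mem_reverse] at hw hw'
        exact hstT1 _ (hused i hi) w hw ((hT1 w).2 ⟨j, hj, hw'⟩)
    · by_cases hj : on j
      · simp only [nl, if_neg hi, if_pos hj, List.mem_reverse] at hw hw'
        exact hstT1 _ (hused j hj) w hw' ((hT1 w).2 ⟨i, hi, hw⟩)
      · simp only [nl, if_neg hi, if_neg hj] at hw hw'
        exact S.disj i j hij hw hw'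
  -- a new stem is disjoint from the new links
  have hnewd : ∀ q ∈ Y, q ∉ Used → ∀ i, ∀ w ∈ stem q, w ∉ nl i := by
    intro q hq hqU i w hw hw'
    by_cases hi : on i
    · simp only [nl, if_pos hi, List.mem_reverse] at hw'
      exact hYd q hq _ (hused i hi) (fun h => hqU (h ▸ Finset.mem_image_of_mem _ (by simp [hi])))
        hw hw'
    · simp only [nl, if_neg hi] at hw'
      exact hstT1 q hq w hw ((hT1 w).2 ⟨i, hi, hw'⟩)
  by_cases hZhit : ∃ q ∈ Y, ∃ x, ∃ hx : x ∈ Z, q = ⟨Sum.inr (Sum.inr x), hx⟩
  · -- a new link from `v` to a vertex of `Z`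
    right
    obtain ⟨q, hq, x, hx, rfl⟩ := hZhit
    have hqU : (⟨Sum.inr (Sum.inr x), hx⟩ : T) ∉ Used := by
      intro h
      rw [Finset.mem_image] at h
      obtain ⟨i, _, h⟩ := h
      have := congrArg Subtype.val h; simp [tgt] at this
    refine ⟨x, hx, Option ι, inferInstance, ⟨fun o => match o with
        | none => x
        | some i => nx i, fun o => match o with
        | none => v
        | some i => ny i, fun o => match o with
        | none => (stem ⟨Sum.inr (Sum.inr x), hx⟩).reverse
        | some i => nl i, ?_, ?_⟩, ?_⟩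
    · intro o
      rcases o with _ | i
      · exact hind' ⟨Sum.inr (Sum.inr x), hx⟩ (hZB hx) _ (hYs _ hq)
      · exact hnlink i
    · intro o o' hne w hw hw'
      rcases o with _ | i <;> rcases o' with _ | j
      · exact hne rfl
      · exact hnewd _ hq hqU j w (by simpa using hw) hw'
      · exact hnewd _ hq hqU i w (by simpa using hw') hw
      · exact hndisj i j (fun h => hne (by rw [h])) hw hw'
    · rw [univ_map_option]
      congr 1
      refine Multiset.map_congr rfl (fun i _ => (hnsym i).symm)
  · -- pigeonhole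
    left
    let cond : T → ι → Prop := fun q i => match q.1 with
      | Sum.inl (i', _) => i' = i
      | Sum.inr (Sum.inl w) => w ∈ S.l i
      | Sum.inr (Sum.inr _) => False
    have hlk : ∀ q : {q // q ∈ Y \ Used}, ∃ i, ¬ on i ∧ cond q.1 i := by
      rintro ⟨q, hq⟩
      rw [Finset.mem_sdiff] at hq
      obtain ⟨⟨i, b⟩ | w | x, hval⟩ := q
      · refine ⟨i, ?_, rfl⟩
        intro hi
        apply hq.2
        rw [Finset.mem_image]
        refine ⟨i, by simp [hi], ?_⟩
        apply Subtype.ext
        simp only [tgt, Sum.inl.injEq, Prod.mk.injEq, true_and]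
        by_contra hne
        have hb : b = !(sd i) := by
          rcases hh : sd i with _ | _ <;> rcases b with _ | _ <;> simp_all
        apply hval
        rw [hb]
        exact hsd' i hi
      · have hw := hval
        change w ∈ T1 at hw
        rw [hT1] at hw
        obtain ⟨i, hi, hwi⟩ := hw
        exact ⟨i, hi, hwi⟩
      · exact absurd ⟨_, hq.1, x, hval, rfl⟩ hZhit
    choose lk hlk1 hlk2 using hlk
    have hcardlt : (Finset.univ.filter (fun i => ¬ on i)).card <
        (Finset.univ : Finset {q // q ∈ Y \ Used}).card := by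
      have h1 : (Finset.univ.filter on).card + (Finset.univ.filter (fun i => ¬ on i)).card = m := by
        rw [hm, ← Finset.card_univ]
        exact Finset.card_filter_add_card_filter_not on
      have h2 : Used.card = (Finset.univ.filter on).card :=
        Finset.card_image_of_injective _ htgt_inj
      have h3 : (Y \ Used).card = Y.card - Used.card := Finset.card_sdiff_of_subset hUY
      rw [Finset.card_univ, Fintype.card_coe]
      omega
    obtain ⟨q, _, q', _, hqq, hlkeq⟩ := Finset.exists_ne_map_eq_of_card_lt_of_maps_to hcardlt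
      (f := lk) (fun q _ => by
        have := hlk1 q
        simp [this])
    set i := lk q with hi
    have hion : ¬ on i := hlk1 q
    have hqc : cond q.1 i := hlk2 q
    have hqc' : cond q'.1 i := by rw [hlkeq]; exact hlk2 q'
    have hqY := Finset.mem_sdiff.1 q.2
    have hqY' := Finset.mem_sdiff.1 q'.2
    have hL := S.link i
    have hqq' : q.1 ≠ q'.1 := fun h => hqq (Subtype.ext h)
    have hdec : ∀ q : T, cond q i → ∃ F1 F2, S.x i :: S.l i ++ [S.y i] = F1 ++ tv q :: F2 := by
      rintro ⟨⟨i', b⟩ | w | x, hval⟩ hc'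
      · have : i' = i := hc'
        subst this
        rcases b with _ | _
        · exact ⟨[], S.l _ ++ [S.y _], rfl⟩
        · exact ⟨S.x _ :: S.l _, [], rfl⟩
      · have hw : w ∈ S.l i := hc'
        obtain ⟨a, b, hab⟩ := List.append_of_mem hw
        refine ⟨S.x i :: a, b ++ [S.y i], ?_⟩
        rw [hab]
        simp [tv]
      · exact hc'.elim
    have htvne : ∀ q q' : T, cond q i → cond q' i → q ≠ q' → tv q ≠ tv q' := by
      rintro ⟨⟨i', b⟩ | w | x, hval⟩ ⟨⟨j', b'⟩ | w' | x', hval'⟩ hc1 hc2 hne htv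
      · have e1 : i' = i := hc1
        have e2 : j' = i := hc2
        have htv' : ev i' b = ev j' b' := htv
        rw [e1, e2] at htv'
        have hbb : b = b' → False := by
          intro hbb
          apply hne
          apply Subtype.ext
          show (Sum.inl (i', b) : ι × Bool ⊕ U ⊕ U) = Sum.inl (j', b')
          rw [e1, e2, hbb]
        rcases b with _ | _ <;> rcases b' with _ | _
        · exact hbb rfl
        · exact (S.link i).ne htv'
        · exact (S.link i).ne htv'.symm
        · exact hbb rfl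
      · have hw : w' ∈ S.l i := hc2
        have htv' : ev i' b = w' := htv
        exact (S.link i).mem w' hw (htv' ▸ hevB i' b)
      · exact hc2.elim
      · have hw : w ∈ S.l i := hc1
        have htv' : w = ev j' b' := htv
        exact (S.link i).mem w hw (htv' ▸ hevB j' b')
      · have htv' : w = w' := htv
        subst htv'
        exact hne rfl
      · exact hc2.elim
      · exact hc1.elim
      · exact hc1.elim
      · exact hc1.elim
    have hxv : S.x i ≠ v := fun h => hion (Or.inl h)
    have hyv : S.y i ≠ v := fun h => hion (Or.inr h)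
    have hIl : ∀ w ∈ I0, w ∉ S.l i := by
      intro w hw hwl
      exact ((hI0 w).1 hw).2 ((hT1 w).2 ⟨i, hion, hwl⟩)
    have hsp : ∃ m1 m2, IsLink G B (S.x i) v m1 ∧ IsLink G B (S.y i) v m2 ∧ List.Disjoint m1 m2 ∧
        (∀ w ∈ m1, w ∈ S.l i ∨ w ∈ stem q.1 ∨ w ∈ stem q'.1) ∧
        (∀ w ∈ m2, w ∈ S.l i ∨ w ∈ stem q.1 ∨ w ∈ stem q'.1) := by
      obtain ⟨F1, F2, hF⟩ := hdec q.1 hqc
      obtain ⟨F1', F2', hF'⟩ := hdec q'.1 hqc'
      have hmem : tv q'.1 ∈ F1 ++ tv q.1 :: F2 := by rw [← hF, hF']; simp
      have hne := htvne q.1 q'.1 hqc hqc' hqq'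
      rw [List.mem_append, List.mem_cons] at hmem
      rcases hmem with h | h | h
      · -- `q'` comes first
        obtain ⟨G1, G2, hG⟩ := List.append_of_mem h
        have hF2 : S.x i :: S.l i ++ [S.y i] = G1 ++ tv q'.1 :: (G2 ++ tv q.1 :: F2) := by
          rw [hF, hG]; simp
        obtain ⟨m1, m2, h1, h2, h3, h4, h5⟩ := splice hL hv hxv hyv hIB hIl hF2
          (hYs _ hqY'.1) (hYs _ hqY.1) (hYd _ hqY'.1 _ hqY.1 hqq'.symm)
        exact ⟨m1, m2, h1, h2, h3, fun w hw => by have := h4 w hw; tauto,
          fun w hw => by have := h5 w hw; tauto⟩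
      · exact absurd h.symm hne
      · obtain ⟨G1, G2, hG⟩ := List.append_of_mem h
        have hF2 : S.x i :: S.l i ++ [S.y i] = F1 ++ tv q.1 :: (G1 ++ tv q'.1 :: G2) := by
          rw [hF, hG]
        exact splice hL hv hxv hyv hIB hIl hF2 (hYs _ hqY.1) (hYs _ hqY'.1)
          (hYd _ hqY.1 _ hqY'.1 hqq')
    obtain ⟨m1, m2, hm1, hm2, hm12, hm1w, hm2w⟩ := hsp
    have hold : ∀ w, (w ∈ S.l i ∨ w ∈ stem q.1 ∨ w ∈ stem q'.1) → ∀ j, j ≠ i → w ∉ nl j := by
      intro w hw j hj hwj
      rcases hw with hw | hw | hw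
      · have : w ∈ nl i := by simp only [nl, if_neg hion]; exact hw
        exact hndisj i j hj.symm this hwj
      · exact hnewd _ hqY.1 hqY.2 j w hw hwj
      · exact hnewd _ hqY'.1 hqY'.2 j w hw hwj
    refine ⟨S.x i, S.y i, (Finset.univ : Finset {j : ι // j ≠ i}).val.map
      (fun j => s(S.x j.1, S.y j.1)), hxv, hyv, univ_map_ne _ i, Option (Option {j : ι // j ≠ i}),
      inferInstance, ⟨fun o => match o with
        | none => S.x i
        | some none => S.y i
        | some (some j) => nx j.1, fun o => match o with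
        | none => v
        | some none => v
        | some (some j) => ny j.1, fun o => match o with
        | none => m1
        | some none => m2
        | some (some j) => nl j.1, ?_, ?_⟩, ?_⟩
    · intro o
      rcases o with _ | _ | j
      · exact hm1
      · exact hm2
      · exact hnlink j.1
    · intro o o' hne w hw hw'
      rcases o with _ | _ | j <;> rcases o' with _ | _ | j'
      · exact hne rfl
      · exact hm12 hw hw'
      · exact hold w (hm1w w hw) j'.1 j'.2 hw'
      · exact hm12 hw' hw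
      · exact hne rfl
      · exact hold w (hm2w w hw) j'.1 j'.2 hw'
      · exact hold w (hm1w w hw') j.1 j.2 hw
      · exact hold w (hm2w w hw') j.1 j.2 hw
      · exact hndisj j.1 j'.1 (fun h => hne (by rw [Subtype.ext h])) hw hw'
    · rw [univ_map_option, univ_map_option]
      congr 2
      exact Multiset.map_congr rfl (fun j _ => (hnsym j.1).symm)

end Pool.Agent.Hag
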