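import Pool.Agent.LibHag.Pinch

/-!
# The subdivided graph
-/

set_option autoImplicit false

open Finset

namespace Pool.Agent.Hag

variable {V : Type}

/-- The subdivided graph of `G`: its vertices are the vertices and the pairs of vertices of `G`, a
vertex being adjacent to the edges of `G` containing it. -/
def Sub (G : SimpleGraph V) : SimpleGraph (V ⊕ Sym2 V) where
  Adj p q := (∃ v e, p = Sum.inl v ∧ q = Sum.inr e ∧ e ∈ G.edgeSet ∧ v ∈ e) ∨
    (∃ v e, q = Sum.inl v ∧ p = Sum.inr e ∧ e ∈ G.edgeSet ∧ v ∈ e)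
  symm := ⟨fun p q h => h.symm⟩
  loopless := ⟨fun p h => by
    rcases h with ⟨v, e, h1, h2, _⟩ | ⟨v, e, h1, h2, _⟩ <;> rw [h1] at h2 <;> cases h2⟩

theorem sub_adj_lr (G : SimpleGraph V) (v : V) (e : Sym2 V) :
    (Sub G).Adj (Sum.inl v) (Sum.inr e) ↔ e ∈ G.edgeSet ∧ v ∈ e := by
  constructor
  · rintro (⟨v', e', h1, h2, h3⟩ | ⟨v', e', h1, h2, h3⟩)
    · cases h1; cases h2; exact h3
    · cases h1
  · intro h
    exact Or.inl ⟨v, e, rfl, rfl, h⟩

theorem sub_adj_rl (G : SimpleGraph V) (v : V) (e : Sym2 V) :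
    (Sub G).Adj (Sum.inr e) (Sum.inl v) ↔ e ∈ G.edgeSet ∧ v ∈ e := by
  rw [(Sub G).adj_comm, sub_adj_lr]

theorem sub_adj_ll (G : SimpleGraph V) (v w : V) : ¬ (Sub G).Adj (Sum.inl v) (Sum.inl w) := by
  rintro (⟨v', e', h1, h2, h3⟩ | ⟨v', e', h1, h2, h3⟩) <;> cases h2

theorem sub_adj_rr (G : SimpleGraph V) (e f : Sym2 V) : ¬ (Sub G).Adj (Sum.inr e) (Sum.inr f) := by
  rintro (⟨v', e', h1, h2, h3⟩ | ⟨v', e', h1, h2, h3⟩) <;> cases h1

/-- A walk of `G` avoiding some vertices and edges gives a walk of the subdivided graph. -/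
theorem walk_to_sub (G : SimpleGraph V) (X : Finset (V ⊕ Sym2 V)) (H : SimpleGraph V)
    (hH : ∀ a b, H.Adj a b → G.Adj a b ∧ Sum.inr s(a, b) ∉ X ∧ Sum.inl b ∉ X) :
    ∀ {a b : V} (_ : H.Walk a b), a ≠ b →
      ∃ l : List (V ⊕ Sym2 V), (Sum.inl a :: l ++ [Sum.inl b]).IsChain (Sub G).Adj ∧ ∀ w ∈ l, w ∉ X := by
  intro a b p
  induction p with
  | nil => intro h; exact absurd rfl h
  | @cons u v w h p ih =>
    intro huw
    obtain ⟨h1, h2, h3⟩ := hH u v h
    have e1 : (Sub G).Adj (Sum.inl u) (Sum.inr s(u, v)) := by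
      rw [sub_adj_lr]; exact ⟨h1, by simp⟩
    have e2 : (Sub G).Adj (Sum.inr s(u, v)) (Sum.inl v) := by
      rw [sub_adj_rl]; exact ⟨h1, by simp⟩
    by_cases hvw : v = w
    · subst hvw
      refine ⟨[Sum.inr s(u, v)], ?_, ?_⟩
      · simp [e1, e2]
      · intro x hx
        rw [List.mem_singleton] at hx
        rw [hx]; exact h2
    · obtain ⟨l, hl1, hl2⟩ := ih hvw
      refine ⟨Sum.inr s(u, v) :: Sum.inl v :: l, ?_, ?_⟩
      · simp only [List.cons_append, List.isChain_cons_cons] at hl1 ⊢
        exact ⟨e1, e2, hl1⟩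
      · intro x hx
        rcases List.mem_cons.1 hx with rfl | hx
        · exact h2
        · rcases List.mem_cons.1 hx with rfl | hx
          · exact h3
          · exact hl2 x hx

/-- Mixed connectivity: in a `c`-connected graph, fewer than `c` vertices and edges do not separate
the other vertices. -/
theorem sub_conn [Fintype V] [DecidableEq V] (G : SimpleGraph V) (c : ℕ)
    (hcard : c + 1 ≤ Fintype.card V)
    (hconn : ∀ X : Finset V, X.card < c → (G.induce ((↑X : Set V)ᶜ)).Connected) (A : Finset V) :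
    Conn (Sub G) (A.map ⟨Sum.inl, Sum.inl_injective⟩) c := by
  classical
  intro X hX a' ha' b' hb' hab' haX' hbX'
  rw [Finset.mem_map] at ha' hb'
  obtain ⟨a, ha, rfl⟩ := ha'
  obtain ⟨b, hb, rfl⟩ := hb'
  simp only [Function.Embedding.coeFn_mk] at hab' haX' hbX' ⊢
  have hab : a ≠ b := fun h => hab' (by rw [h])
  -- the graph that is left
  let H : SimpleGraph V :=
    { Adj := fun x y => G.Adj x y ∧ Sum.inr s(x, y) ∉ X ∧ Sum.inl x ∉ X ∧ Sum.inl y ∉ X
      symm := ⟨fun x y h => ⟨h.1.symm, by rw [Sym2.eq_swap]; exact h.2.1, h.2.2.2, h.2.2.1⟩⟩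
      loopless := ⟨fun x h => G.loopless.irrefl x h.1⟩ }
  have hHadj : ∀ x y, H.Adj x y ↔ G.Adj x y ∧ Sum.inr s(x, y) ∉ X ∧ Sum.inl x ∉ X ∧ Sum.inl y ∉ X :=
    fun x y => Iff.rfl
  by_cases hr : H.Reachable a b
  · obtain ⟨p⟩ := hr
    exact walk_to_sub G X H (fun x y h => ⟨h.1, h.2.1, h.2.2.2⟩) p hab
  exfalso
  let XV : Finset V := Finset.univ.filter (fun v => Sum.inl v ∈ X)
  let C : Finset V := Finset.univ.filter (fun v => H.Reachable a v)
  let D : Finset V := Finset.univ.filter (fun v => ¬ H.Reachable a v ∧ Sum.inl v ∉ X)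
  let XE : Finset (Sym2 V) := Finset.univ.filter (fun e => Sum.inr e ∈ X)
  have hXVE : XV.card + XE.card ≤ X.card := by
    have : XV.map ⟨Sum.inl, Sum.inl_injective⟩ ∪ XE.map ⟨Sum.inr, Sum.inr_injective⟩ ⊆ X := by
      intro x hx
      rw [Finset.mem_union, Finset.mem_map, Finset.mem_map] at hx
      rcases hx with ⟨y, hy, rfl⟩ | ⟨y, hy, rfl⟩
      · exact (Finset.mem_filter.1 hy).2
      · exact (Finset.mem_filter.1 hy).2
    have h1 := Finset.card_le_card this
    rw [Finset.card_union_of_disjoint, Finset.card_map, Finset.card_map] at h1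
    · exact h1
    · rw [Finset.disjoint_left]
      intro x hx hx'
      rw [Finset.mem_map] at hx hx'
      obtain ⟨y, _, rfl⟩ := hx
      obtain ⟨z, _, hz⟩ := hx'
      cases hz
  have haC : a ∈ C := by simp [C]
  have hbD : b ∈ D := by simp [D, hr, hbX']
  have hCX : ∀ v ∈ C, Sum.inl v ∉ X := by
    intro v hv
    have hv' : H.Reachable a v := (Finset.mem_filter.1 hv).2
    by_cases hav : a = v
    · rw [← hav]; exact haX'
    · obtain ⟨p⟩ := hv'.symm
      cases p with
      | nil => exact absurd rfl hav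
      | cons h p => exact h.2.2.1
  have hcross : ∀ x ∈ C, ∀ y ∈ D, G.Adj x y → s(x, y) ∈ XE := by
    intro x hx y hy hxy
    by_contra hne
    have hne' : Sum.inr s(x, y) ∉ X := fun h => hne (by simp [XE, h])
    have h1 : H.Adj x y := ⟨hxy, hne', hCX x hx, (Finset.mem_filter.1 hy).2.2⟩
    exact (Finset.mem_filter.1 hy).2.1 ((Finset.mem_filter.1 hx).2.trans h1.reachable)
  have htot : C.card + D.card + XV.card = Fintype.card V := by
    have h1 : C ∪ D ∪ XV = Finset.univ := by
      ext v
      simp only [C, D, XV, Finset.mem_union, Finset.mem_filter, Finset.mem_univ, true_and,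
        iff_true]
      tauto
    have h2 : Disjoint C D := by
      rw [Finset.disjoint_left]
      intro v hv hv'
      exact (Finset.mem_filter.1 hv').2.1 (Finset.mem_filter.1 hv).2
    have h3 : Disjoint (C ∪ D) XV := by
      rw [Finset.disjoint_left]
      intro v hv hv'
      have h4 : Sum.inl v ∈ X := (Finset.mem_filter.1 hv').2
      rcases Finset.mem_union.1 hv with hv | hv
      · exact hCX v hv h4
      · exact (Finset.mem_filter.1 hv).2.2 h4
    rw [← Finset.card_union_of_disjoint h2, ← Finset.card_union_of_disjoint h3, h1,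
      Finset.card_univ]
  by_cases hnon : ∃ x ∈ C, ∃ y ∈ D, ¬ G.Adj x y
  · obtain ⟨x, hx, y, hy, hxy⟩ := hnon
    -- choose an end of every bad edge
    let ch : Sym2 V → Finset V := fun e =>
      if h : ∃ v ∈ e, v ≠ x ∧ v ≠ y then {h.choose} else ∅
    have hch : ∀ e, (ch e).card ≤ 1 := by
      intro e
      simp only [ch]
      split <;> simp
    let X' : Finset V := XV ∪ XE.biUnion ch
    have hX' : X'.card < c := by
      calc X'.card ≤ XV.card + (XE.biUnion ch).card := Finset.card_union_le _ _
        _ ≤ XV.card + XE.card := by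
            have : (XE.biUnion ch).card ≤ XE.card * 1 :=
              Finset.card_biUnion_le_card_mul _ _ _ (fun e _ => hch e)
            omega
        _ ≤ X.card := hXVE
        _ < c := hX
    have hxX' : x ∉ X' := by
      intro h
      rcases Finset.mem_union.1 h with h | h
      · exact hCX x hx (Finset.mem_filter.1 h).2
      · rw [Finset.mem_biUnion] at h
        obtain ⟨e, _, he⟩ := h
        simp only [ch] at he
        split at he
        · rename_i h
          rw [Finset.mem_singleton] at he
          exact h.choose_spec.2.1 he.symm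
        · simp at he
    have hyX' : y ∉ X' := by
      intro h
      rcases Finset.mem_union.1 h with h | h
      · exact (Finset.mem_filter.1 hy).2.2 (Finset.mem_filter.1 h).2
      · rw [Finset.mem_biUnion] at h
        obtain ⟨e, _, he⟩ := h
        simp only [ch] at he
        split at he
        · rename_i h
          rw [Finset.mem_singleton] at he
          exact h.choose_spec.2.2 he.symm
        · simp at he
    have hc := (hconn X' hX').preconnected ⟨x, by simpa using hxX'⟩ ⟨y, by simpa using hyX'⟩
    obtain ⟨p⟩ := hc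
    have key : ∀ (u w : ((↑X' : Set V)ᶜ : Set V)) (q : (G.induce ((↑X' : Set V)ᶜ)).Walk u w),
        u.1 ∈ C → w.1 ∈ D → False := by
      intro u w q
      induction q with
      | nil =>
        intro h1 h2
        exact (Finset.mem_filter.1 h2).2.1 (Finset.mem_filter.1 h1).2
      | @cons u v w h q ih =>
        intro h1 h2
        have hadj : G.Adj u.1 v.1 := h
        have hvX' : v.1 ∉ X' := fun h => v.2 (Finset.mem_coe.2 h)
        have huX' : u.1 ∉ X' := fun h => u.2 (Finset.mem_coe.2 h)
        by_cases hvC : v.1 ∈ C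
        · exact ih hvC h2
        · have hvD : v.1 ∈ D := by
            rw [Finset.mem_filter]
            refine ⟨Finset.mem_univ _, fun h => hvC (by simp [C, h]), fun h => hvX' ?_⟩
            exact Finset.mem_union_left _ (by simp [XV, h])
          have he := hcross _ h1 _ hvD hadj
          have hex : ∃ z ∈ s(u.1, v.1), z ≠ x ∧ z ≠ y := by
            by_cases hux : u.1 = x
            · refine ⟨v.1, by simp, ?_, ?_⟩
              · intro h; rw [h] at hvC; exact hvC hx
              · intro h; rw [hux, h] at hadj; exact hxy hadj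
            · refine ⟨u.1, by simp, hux, ?_⟩
              intro h
              rw [h] at h1
              exact (Finset.mem_filter.1 hy).2.1 (Finset.mem_filter.1 h1).2
          have hmem : hex.choose ∈ X' := by
            apply Finset.mem_union_right
            rw [Finset.mem_biUnion]
            refine ⟨_, he, ?_⟩
            simp only [ch]
            rw [dif_pos hex]
            simp
          have h3 := hex.choose_spec.1
          rw [Sym2.mem_iff] at h3
          rcases h3 with h3 | h3
          · rw [h3] at hmem; exact huX' hmem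
          · rw [h3] at hmem; exact hvX' hmem
    exact key _ _ p hx hy
  · push Not at hnon
    have h1 : (C ×ˢ D).card ≤ XE.card := by
      refine Finset.card_le_card_of_injOn (fun p => s(p.1, p.2)) ?_ ?_
      · intro p hp
        rw [Finset.mem_coe, Finset.mem_product] at hp
        exact hcross _ hp.1 _ hp.2 (hnon _ hp.1 _ hp.2)
      · intro p hp q hq hpq
        rw [Finset.mem_coe, Finset.mem_product] at hp hq
        simp only at hpq
        rw [Sym2.eq_iff] at hpq
        rcases hpq with ⟨h1, h2⟩ | ⟨h1, h2⟩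
        · exact Prod.ext h1 h2
        · exfalso
          rw [h1] at hp
          exact (Finset.mem_filter.1 hq.2).2.1 (Finset.mem_filter.1 hp.1).2
    rw [Finset.card_product] at h1
    have hC1 : 1 ≤ C.card := Finset.card_pos.2 ⟨a, haC⟩
    have hD1 : 1 ≤ D.card := Finset.card_pos.2 ⟨b, hbD⟩
    have h2 : C.card + D.card ≤ C.card * D.card + 1 := by nlinarith
    omega

end Pool.Agent.Hag
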