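import Pool.Agent.LibHag.Fan

/-!
# Link systems

`G` is a graph in which no two terminals are adjacent (in the application: a subdivided graph).
A link of a terminal set `B` is a path between two distinct vertices of `B` with no inner vertex in
`B`. `Real G B M` says that the multiset `M` of pairs of terminals is the multiset of pairs of ends
of a family of links with pairwise disjoint interiors.
-/

set_option autoImplicit false

open Finset

namespace Pool.Agent.Hag

variable {U : Type} [DecidableEq U]

/-- `l` is the list of inner vertices of a link from `x` to `y`. -/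
structure IsLink (G : SimpleGraph U) (B : Finset U) (x y : U) (l : List U) : Prop where
  hx : x ∈ B
  hy : y ∈ B
  ne : x ≠ y
  mem : ∀ w ∈ l, w ∉ B
  nodup : l.Nodup
  chain : (x :: l ++ [y]).IsChain G.Adj

omit [DecidableEq U] in
theorem IsLink.symm {G : SimpleGraph U} {B : Finset U} {x y : U} {l : List U}
    (h : IsLink G B x y l) : IsLink G B y x l.reverse := by
  refine ⟨h.hy, h.hx, h.ne.symm, fun w hw => h.mem w (List.mem_reverse.1 hw),
    List.nodup_reverse.2 h.nodup, ?_⟩
  have h1 : (y :: l.reverse ++ [x]) = (x :: l ++ [y]).reverse := by simp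
  rw [h1, List.isChain_reverse]
  exact h.chain.imp (fun a b hab => hab.symm)

/-- A system of links indexed by `ι`. -/
structure Sys (G : SimpleGraph U) (B : Finset U) (ι : Type) where
  x : ι → U
  y : ι → U
  l : ι → List U
  link : ∀ i, IsLink G B (x i) (y i) (l i)
  disj : ∀ i j, i ≠ j → List.Disjoint (l i) (l j)

/-- The multiset of pairs `M` is realised by a system of links of `B`. -/
def Real (G : SimpleGraph U) (B : Finset U) (M : Multiset (Sym2 U)) : Prop :=
  ∃ (ι : Type) (_ : Fintype ι) (S : Sys G B ι),
    M = (Finset.univ : Finset ι).val.map (fun i => s(S.x i, S.y i))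

omit [DecidableEq U] in
theorem real_zero (G : SimpleGraph U) (B : Finset U) : Real G B 0 :=
  ⟨Empty, inferInstance, ⟨Empty.elim, Empty.elim, Empty.elim, fun i => i.elim, fun i => i.elim⟩, rfl⟩

theorem univ_map_ne {ι α : Type} [Fintype ι] [DecidableEq ι] (f : ι → α) (i : ι) :
    (Finset.univ : Finset ι).val.map f =
      f i ::ₘ (Finset.univ : Finset {j : ι // j ≠ i}).val.map (fun j => f j.1) := by
  have h1 : (Finset.univ : Finset ι) = insert i (Finset.univ.filter (fun j => j ≠ i)) := by
    ext j
    simp only [Finset.mem_univ, Finset.mem_insert, Finset.mem_filter, true_and, true_iff]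
    exact em _
  rw [h1, Finset.insert_val_of_notMem (by simp), Multiset.map_cons]
  congr 1
  have h2 : (Finset.univ.filter (fun j : ι => j ≠ i)) =
      (Finset.univ : Finset {j : ι // j ≠ i}).map ⟨Subtype.val, Subtype.val_injective⟩ := by
    ext j
    simp only [Finset.mem_filter, Finset.mem_univ, true_and, Finset.mem_map,
      Function.Embedding.coeFn_mk, Subtype.exists, exists_prop, exists_eq_right]
  rw [h2, Finset.map_val, Multiset.map_map]
  rfl

theorem univ_map_option {ι α : Type} [Fintype ι] (f : Option ι → α) :
    (Finset.univ : Finset (Option ι)).val.map f =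
      f none ::ₘ (Finset.univ : Finset ι).val.map (fun j => f (some j)) := by
  have h : (Finset.univ : Finset (Option ι)).val = none ::ₘ (Finset.univ : Finset ι).val.map some := by
    rfl
  rw [h, Multiset.map_cons, Multiset.map_map]
  rfl

omit [DecidableEq U] in
/-- Deleting one link. -/
theorem real_of_cons {G : SimpleGraph U} {B : Finset U} {e : Sym2 U} {M : Multiset (Sym2 U)}
    (h : Real G B (e ::ₘ M)) : Real G B M := by
  classical
  obtain ⟨ι, _, S, hS⟩ := h
  have he : e ∈ (Finset.univ : Finset ι).val.map (fun i => s(S.x i, S.y i)) := by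
    rw [← hS]; exact Multiset.mem_cons_self _ _
  rw [Multiset.mem_map] at he
  obtain ⟨i, _, rfl⟩ := he
  rw [univ_map_ne _ i] at hS
  refine ⟨{j : ι // j ≠ i}, inferInstance, ⟨fun j => S.x j.1, fun j => S.y j.1, fun j => S.l j.1,
    fun j => S.link j.1, fun j j' hne => S.disj _ _ (fun h => hne (Subtype.ext h))⟩, ?_⟩
  exact (Multiset.cons_inj_right _).1 hS

omit [DecidableEq U] in
/-- Every smaller multiset is realised. -/
theorem Real.mono {G : SimpleGraph U} {B : Finset U} {M M' : Multiset (Sym2 U)}
    (h : Real G B M) (hle : M' ≤ M) : Real G B M' := by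
  obtain ⟨N, rfl⟩ := Multiset.le_iff_exists_add.1 hle
  clear hle
  induction N using Multiset.induction_on with
  | empty => simpa using h
  | cons e N ih =>
    apply ih
    rw [Multiset.add_cons] at h
    exact real_of_cons h

omit [DecidableEq U] in
/-- An isolated terminal that is on no link can be added. -/
theorem Real.isLoopless {G : SimpleGraph U} {B : Finset U} {M : Multiset (Sym2 U)}
    (h : Real G B M) : ∀ e ∈ M, ¬ e.IsDiag ∧ ∀ z ∈ e, z ∈ B := by
  obtain ⟨ι, _, S, rfl⟩ := h
  intro e he
  rw [Multiset.mem_map] at he
  obtain ⟨i, _, rfl⟩ := he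
  refine ⟨by rw [Sym2.mk_isDiag_iff]; exact (S.link i).ne, ?_⟩
  intro z hz
  rw [Sym2.mem_iff] at hz
  rcases hz with rfl | rfl
  · exact (S.link i).hx
  · exact (S.link i).hy

/-- Adding a terminal. -/
theorem Real.insertTerm {G : SimpleGraph U} {B : Finset U} {M : Multiset (Sym2 U)}
    (h : Real G B M) {v : U} (hv : v ∉ B) :
    Real G (insert v B) M ∨ ∃ u w M0, M = s(u, w) ::ₘ M0 ∧
      Real G (insert v B) (s(u, v) ::ₘ s(w, v) ::ₘ M0) := by
  classical
  obtain ⟨ι, _, S, hS⟩ := h
  by_cases hex : ∃ i, v ∈ S.l i
  · right
    obtain ⟨i, hi⟩ := hex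
    obtain ⟨a, b, hab⟩ := List.append_of_mem hi
    have hoth : ∀ j, j ≠ i → v ∉ S.l j := fun j hj hvj => S.disj i j hj.symm hi hvj
    have hnd := (S.link i).nodup
    rw [hab, List.nodup_append] at hnd
    obtain ⟨hnda, hndvb, hdisab⟩ := hnd
    have hva : v ∉ a := fun hm => hdisab v hm v (by simp) rfl
    have hvb : v ∉ b := (List.nodup_cons.1 hndvb).1
    have hch := (S.link i).chain
    rw [hab] at hch
    have hch2 : ((S.x i :: a) ++ v :: (b ++ [S.y i])).IsChain G.Adj := by simpa using hch
    rw [List.isChain_split] at hch2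
    have hmem := (S.link i).mem
    rw [hab] at hmem
    have hxv : S.x i ≠ v := fun h => hv (h ▸ (S.link i).hx)
    have hyv : S.y i ≠ v := fun h => hv (h ▸ (S.link i).hy)
    have l1 : IsLink G (insert v B) (S.x i) v a := by
      refine ⟨Finset.mem_insert_of_mem (S.link i).hx, Finset.mem_insert_self _ _, hxv, ?_, hnda, ?_⟩
      · intro w hw
        rw [Finset.mem_insert, not_or]
        exact ⟨fun h => hva (h ▸ hw), hmem w (by simp [hw])⟩
      · simpa using hch2.1
    have l2 : IsLink G (insert v B) (S.y i) v b.reverse := by
      have : IsLink G (insert v B) v (S.y i) b := by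
        refine ⟨Finset.mem_insert_self _ _, Finset.mem_insert_of_mem (S.link i).hy, hyv.symm, ?_,
          (List.nodup_cons.1 hndvb).2, ?_⟩
        · intro w hw
          rw [Finset.mem_insert, not_or]
          exact ⟨fun h => hvb (h ▸ hw), hmem w (by simp [hw])⟩
        · simpa using hch2.2
      exact this.symm
    have hab' : ∀ w, w ∈ a → w ∈ b → False := fun w h1 h2 => hdisab w h1 w (by simp [h2]) rfl
    rw [univ_map_ne _ i] at hS
    refine ⟨S.x i, S.y i, _, hS, Option (Option {j : ι // j ≠ i}), inferInstance,
      ⟨fun o => match o with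
        | none => S.x i
        | some none => S.y i
        | some (some j) => S.x j.1,
       fun o => match o with
        | none => v
        | some none => v
        | some (some j) => S.y j.1,
       fun o => match o with
        | none => a
        | some none => b.reverse
        | some (some j) => S.l j.1, ?_, ?_⟩, ?_⟩
    · intro o
      rcases o with _ | _ | j
      · exact l1
      · exact l2
      · refine ⟨Finset.mem_insert_of_mem (S.link j.1).hx, Finset.mem_insert_of_mem (S.link j.1).hy,
          (S.link j.1).ne, ?_, (S.link j.1).nodup, (S.link j.1).chain⟩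
        intro w hw
        rw [Finset.mem_insert, not_or]
        exact ⟨fun h => hoth j.1 j.2 (h ▸ hw), (S.link j.1).mem w hw⟩
    · intro o o' hne w hw hw'
      have ha : ∀ w, w ∈ a → w ∈ S.l i := fun w h => by rw [hab]; simp [h]
      have hb : ∀ w, w ∈ b.reverse → w ∈ S.l i := fun w h => by
        rw [hab]; simp at h; simp [h]
      rcases o with _ | _ | j <;> rcases o' with _ | _ | j'
      · exact hne rfl
      · exact hab' w hw (by simpa using hw')
      · exact S.disj i j'.1 j'.2.symm (ha w hw) hw'
      · exact hab' w hw' (by simpa using hw)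
      · exact hne rfl
      · exact S.disj i j'.1 j'.2.symm (hb w hw) hw'
      · exact S.disj i j.1 j.2.symm (ha w hw') hw
      · exact S.disj i j.1 j.2.symm (hb w hw') hw
      · exact S.disj j.1 j'.1 (fun h => hne (by rw [Subtype.ext h])) hw hw'
    · rw [univ_map_option, univ_map_option]
  · left
    push Not at hex
    refine ⟨ι, inferInstance, ⟨S.x, S.y, S.l, ?_, S.disj⟩, hS⟩
    intro i
    refine ⟨Finset.mem_insert_of_mem (S.link i).hx, Finset.mem_insert_of_mem (S.link i).hy,
      (S.link i).ne, ?_, (S.link i).nodup, (S.link i).chain⟩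
    intro w hw
    rw [Finset.mem_insert, not_or]
    exact ⟨fun h => hex i (h ▸ hw), (S.link i).mem w hw⟩

end Pool.Agent.Hag
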