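import Pool.Agent.LibHag.Subdiv

/-!
# From link systems of the subdivided graph to paths of the graph
-/

set_option autoImplicit false

open Finset

namespace Pool.Agent.Hag

variable {V : Type}

/-- A chain of the subdivided graph without repetitions is a path of the graph. -/
theorem toWalk (G : SimpleGraph V) : ∀ (n : ℕ) (l : List (V ⊕ Sym2 V)), l.length ≤ n → ∀ a b : V,
    (Sum.inl a :: l ++ [Sum.inl b]).IsChain (Sub G).Adj →
    (Sum.inl a :: l ++ [Sum.inl b]).Nodup →
    ∃ p : G.Walk a b, p.IsPath ∧ (∀ v, v ∈ p.support ↔ Sum.inl v ∈ (Sum.inl a :: l ++ [Sum.inl b])) ∧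
      ∀ e ∈ p.edges, Sum.inr e ∈ l := by
  intro n
  induction n using Nat.strong_induction_on with
  | _ n ih =>
    intro l hl a b hc hnd
    rcases l with _ | ⟨x, l⟩
    · exfalso
      simp only [List.cons_append, List.nil_append, List.isChain_cons_cons] at hc
      exact sub_adj_ll G a b hc.1
    · rcases x with v | e
      · exfalso
        simp only [List.cons_append, List.isChain_cons_cons] at hc
        exact sub_adj_ll G a v hc.1
      · have hae : e ∈ G.edgeSet ∧ a ∈ e := by
          simp only [List.cons_append, List.isChain_cons_cons] at hc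
          exact (sub_adj_lr G a e).1 hc.1
        rcases l with _ | ⟨y, l⟩
        · have hbe : e ∈ G.edgeSet ∧ b ∈ e := by
            simp only [List.cons_append, List.nil_append, List.isChain_cons_cons] at hc
            exact (sub_adj_rl G b e).1 hc.2.1
          have hab : a ≠ b := by
            intro h
            rw [h] at hnd
            simp at hnd
          have he : e = s(a, b) := ((Sym2.mem_and_mem_iff hab).1 ⟨hae.2, hbe.2⟩)
          have hadj : G.Adj a b := by rw [he] at hae; exact hae.1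
          refine ⟨SimpleGraph.Walk.cons hadj SimpleGraph.Walk.nil, ?_, ?_, ?_⟩
          · simp [hab]
          · intro v; simp
          · intro f hf
            simp at hf
            simp [hf, he]
        · rcases y with v | f
          · have hve : e ∈ G.edgeSet ∧ v ∈ e := by
              simp only [List.cons_append, List.isChain_cons_cons] at hc
              exact (sub_adj_rl G v e).1 hc.2.1
            have hav : a ≠ v := by
              intro h
              rw [h] at hnd
              simp at hnd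
            have he : e = s(a, v) := ((Sym2.mem_and_mem_iff hav).1 ⟨hae.2, hve.2⟩)
            have hadj : G.Adj a v := by rw [he] at hae; exact hae.1
            have hc2 : (Sum.inl v :: l ++ [Sum.inl b]).IsChain (Sub G).Adj := by
              simp only [List.cons_append, List.isChain_cons_cons] at hc
              simpa using hc.2.2
            have hnd2 : (Sum.inl v :: l ++ [Sum.inl b]).Nodup := by
              have h1 : (Sum.inl a :: Sum.inr e :: (Sum.inl v :: l ++ [Sum.inl b])).Nodup := by
                simpa using hnd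
              exact (List.nodup_cons.1 (List.nodup_cons.1 h1).2).2
            have hlen : l.length < n := by
              simp at hl; omega
            obtain ⟨p, hp1, hp2, hp3⟩ := ih l.length hlen l le_rfl v b hc2 hnd2
            have hap : a ∉ p.support := by
              rw [hp2]
              intro h
              have h1 : (Sum.inl a :: Sum.inr e :: (Sum.inl v :: l ++ [Sum.inl b])).Nodup := by
                simpa using hnd
              exact (List.nodup_cons.1 h1).1 (List.mem_cons_of_mem _ h)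
            refine ⟨SimpleGraph.Walk.cons hadj p, ?_, ?_, ?_⟩
            · rw [SimpleGraph.Walk.cons_isPath_iff]; exact ⟨hp1, hap⟩
            · intro w
              rw [SimpleGraph.Walk.support_cons, List.mem_cons, hp2]
              simp
            · intro f hf
              rw [SimpleGraph.Walk.edges_cons, List.mem_cons] at hf
              rcases hf with rfl | hf
              · rw [he]; simp
              · simp [hp3 f hf]
          · exfalso
            simp only [List.cons_append, List.isChain_cons_cons] at hc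
            exact sub_adj_rr G e f hc.2.1

/-- `M` is the union of the edge sets of `k` Hamiltonian paths on the terminal set `A`. -/
def Decomp {U : Type} (A : Finset U) (k n : ℕ) (M : Multiset (Sym2 U)) : Prop :=
  ∃ h : Fin k → Fin (n + 1) → U, (∀ i, Function.Injective (h i)) ∧ (∀ i j, h i j ∈ A) ∧
    (∀ i, ∀ a ∈ A, ∃ j, h i j = a) ∧
    M = (Finset.univ : Finset (Fin k × Fin n)).val.map
      (fun p => s(h p.1 p.2.castSucc, h p.1 p.2.succ))

theorem equiv_of_map_eq {α ι κ : Type} [Fintype ι] [Fintype κ] (f : ι → α) (g : κ → α)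
    (h : (Finset.univ : Finset ι).val.map f = (Finset.univ : Finset κ).val.map g) :
    ∃ e : ι ≃ κ, ∀ i, g (e i) = f i := by
  classical
  have hc : ∀ a : α, Nonempty ({i // f i = a} ≃ {j // g j = a}) := by
    intro a
    have h1 := congrArg (Multiset.count a) h
    rw [Multiset.count_map, Multiset.count_map] at h1
    rw [← Fintype.card_eq, Fintype.card_subtype, Fintype.card_subtype]
    have h2 : ∀ (τ : Type) [Fintype τ] (u : τ → α),
        (Multiset.filter (fun b => a = u b) (Finset.univ : Finset τ).val).card =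
          (Finset.univ.filter (fun b => u b = a)).card := by
      intro τ _ u
      rw [Finset.card_def, Finset.filter_val]
      congr 1
      refine Multiset.filter_congr fun b _ => eq_comm
    rw [h2, h2] at h1
    exact h1
  exact ⟨Equiv.ofFiberEquiv (fun a => (hc a).some), fun i => Equiv.ofFiberEquiv_map _ i⟩

/-- Concatenation of links along a Hamiltonian order. -/
theorem concat {U : Type} [DecidableEq U] {G : SimpleGraph U} {B : Finset U} {n : ℕ}
    (h : Fin (n + 1) → U) (hinj : Function.Injective h) (hB : ∀ j, h j ∈ B)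
    (L : Fin n → List U) (hL : ∀ j, IsLink G B (h j.castSucc) (h j.succ) (L j))
    (hd : ∀ j j', j ≠ j' → (L j).Disjoint (L j')) :
    ∀ m : ℕ, 0 < m → ∀ hm : m < n + 1, ∃ l : List U,
      (h 0 :: l ++ [h ⟨m, hm⟩]).IsChain G.Adj ∧ (h 0 :: l ++ [h ⟨m, hm⟩]).Nodup ∧
      (∀ j : Fin (n + 1), j.1 ≤ m → h j ∈ (h 0 :: l ++ [h ⟨m, hm⟩])) ∧
      (∀ w ∈ l, (∃ j : Fin (n + 1), j.1 < m ∧ w = h j) ∨ ∃ j : Fin n, j.1 < m ∧ w ∈ L j) := by
  intro m
  induction m with
  | zero => intro h; exact absurd h (lt_irrefl _)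
  | succ m ih =>
    intro _ hm
    rcases Nat.eq_zero_or_pos m with rfl | hm0
    · have hn : 0 < n := by omega
      have h0 := hL ⟨0, hn⟩
      have e1 : (⟨0, hn⟩ : Fin n).castSucc = 0 := rfl
      have e2 : (⟨0, hn⟩ : Fin n).succ = ⟨0 + 1, hm⟩ := rfl
      rw [e1, e2] at h0
      refine ⟨L ⟨0, hn⟩, h0.chain, ?_, ?_, ?_⟩
      · rw [List.cons_append, List.nodup_cons, List.nodup_append]
        refine ⟨?_, h0.nodup, List.nodup_singleton _, ?_⟩
        · intro hmem
          rw [List.mem_append, List.mem_singleton] at hmem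
          rcases hmem with hmem | hmem
          · exact h0.mem _ hmem h0.hx
          · exact h0.ne hmem
        · intro a ha b hb hab
          rw [List.mem_singleton] at hb
          exact h0.mem a ha (hab ▸ hb ▸ h0.hy)
      · intro j hj
        have : j = 0 ∨ j = ⟨0 + 1, hm⟩ := by
          rcases Nat.lt_or_ge j.1 1 with h1 | h1
          · left; exact Fin.ext (show j.1 = 0 by omega)
          · right; exact Fin.ext (show j.1 = 0 + 1 by omega)
        rcases this with rfl | rfl <;> simp
      · intro w hw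
        exact Or.inr ⟨⟨0, hn⟩, by simp, hw⟩
    · have hmn : m < n := by omega
      obtain ⟨l, h1, h2, h3, h4⟩ := ih hm0 (by omega)
      have h0 := hL ⟨m, hmn⟩
      have e1 : (⟨m, hmn⟩ : Fin n).castSucc = ⟨m, by omega⟩ := rfl
      have e2 : (⟨m, hmn⟩ : Fin n).succ = ⟨m + 1, hm⟩ := rfl
      rw [e1, e2] at h0
      have hnew : ∀ w, w ∈ (L ⟨m, hmn⟩ ++ [h ⟨m + 1, hm⟩]) → w ∉ (h 0 :: l ++ [h ⟨m, by omega⟩]) := by
        intro w hw hw'
        have hw'' : (∃ j : Fin (n + 1), j.1 ≤ m ∧ w = h j) ∨ ∃ j : Fin n, j.1 < m ∧ w ∈ L j := by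
          rw [List.mem_append, List.mem_cons, List.mem_singleton] at hw'
          rcases hw' with (rfl | hw') | rfl
          · exact Or.inl ⟨0, by simp, rfl⟩
          · rcases h4 w hw' with ⟨j, hj, hj'⟩ | h
            · exact Or.inl ⟨j, hj.le, hj'⟩
            · exact Or.inr h
          · exact Or.inl ⟨⟨m, by omega⟩, le_rfl, rfl⟩
        rw [List.mem_append, List.mem_singleton] at hw
        rcases hw with hw | hw
        · rcases hw'' with ⟨j, _, hj⟩ | ⟨j, hj, hj'⟩
          · exact h0.mem w hw (hj ▸ hB j)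
          · exact hd ⟨m, hmn⟩ j (fun h => by rw [← h] at hj; simp at hj) hw hj'
        · rcases hw'' with ⟨j, hj, hj'⟩ | ⟨j, hj, hj'⟩
          · have := hinj (hw.symm.trans hj')
            rw [← this] at hj; simp at hj
          · exact (hL j).mem w hj' (hw ▸ hB _)
      refine ⟨l ++ h ⟨m, by omega⟩ :: L ⟨m, hmn⟩, ?_, ?_, ?_, ?_⟩
      · have e3 : (h 0 :: (l ++ h ⟨m, by omega⟩ :: L ⟨m, hmn⟩) ++ [h ⟨m + 1, hm⟩]) =
          (h 0 :: l) ++ h ⟨m, by omega⟩ :: (L ⟨m, hmn⟩ ++ [h ⟨m + 1, hm⟩]) := by simp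
        rw [e3, List.isChain_split]
        exact ⟨by simpa using h1, by simpa using h0.chain⟩
      · have e3 : (h 0 :: (l ++ h ⟨m, by omega⟩ :: L ⟨m, hmn⟩) ++ [h ⟨m + 1, hm⟩]) =
          (h 0 :: l ++ [h ⟨m, by omega⟩]) ++ (L ⟨m, hmn⟩ ++ [h ⟨m + 1, hm⟩]) := by simp
        rw [e3, List.nodup_append]
        refine ⟨h2, ?_, ?_⟩
        · rw [List.nodup_append]
          refine ⟨h0.nodup, List.nodup_singleton _, ?_⟩
          intro a ha b hb hab
          rw [List.mem_singleton] at hb
          exact h0.mem a ha (hab ▸ hb ▸ h0.hy)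
        · intro a ha b hb hab
          exact hnew b hb (hab ▸ ha)
      · intro j hj
        have e3 : (h 0 :: (l ++ h ⟨m, by omega⟩ :: L ⟨m, hmn⟩) ++ [h ⟨m + 1, hm⟩]) =
          (h 0 :: l ++ [h ⟨m, by omega⟩]) ++ (L ⟨m, hmn⟩ ++ [h ⟨m + 1, hm⟩]) := by simp
        rw [e3, List.mem_append]
        rcases Nat.lt_or_ge m j.1 with hj' | hj'
        · right
          have : j = ⟨m + 1, hm⟩ := Fin.ext (show j.1 = m + 1 by omega)
          rw [this]; simp
        · left; exact h3 j hj'
      · intro w hw
        rw [List.mem_append, List.mem_cons] at hw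
        rcases hw with hw | rfl | hw
        · rcases h4 w hw with ⟨j, hj, hj'⟩ | ⟨j, hj, hj'⟩
          · exact Or.inl ⟨j, by omega, hj'⟩
          · exact Or.inr ⟨j, by omega, hj'⟩
        · exact Or.inl ⟨⟨m, by omega⟩, by simp, rfl⟩
        · exact Or.inr ⟨⟨m, hmn⟩, by simp, hw⟩

/-- A link system whose pairs form `k` Hamiltonian paths gives `k` internally disjoint paths. -/
theorem paths_of_decomp [DecidableEq V] (G : SimpleGraph V) (A : Finset V) (k n : ℕ) (hn : 0 < n)
    (M : Multiset (Sym2 (V ⊕ Sym2 V)))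
    (hR : Real (Sub G) (A.map ⟨Sum.inl, Sum.inl_injective⟩) M)
    (hD : Decomp (A.map ⟨Sum.inl, Sum.inl_injective⟩) k n M) :
    ∃ (a b : Fin k → V) (P : (i : Fin k) → G.Walk (a i) (b i)),
      (∀ i, (P i).IsPath ∧ ∀ x ∈ A, x ∈ (P i).support) ∧
      (∀ i j, i ≠ j →
        (∀ x, x ∈ (P i).support → x ∈ (P j).support → x ∈ A) ∧
        (∀ e, e ∈ (P i).edges → e ∉ (P j).edges)) := by
  classical
  obtain ⟨ι, _, S, hS⟩ := hR
  obtain ⟨h, hinj, hmem, hsur, hM⟩ := hD
  rw [hS] at hM
  obtain ⟨e, he⟩ := equiv_of_map_eq _ _ hM.symm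
  -- the links of the paths
  have hlink : ∀ (i : Fin k) (j : Fin n), ∃ l : List (V ⊕ Sym2 V),
      IsLink (Sub G) (A.map ⟨Sum.inl, Sum.inl_injective⟩) (h i j.castSucc) (h i j.succ) l ∧
        ∀ w ∈ l, w ∈ S.l (e (i, j)) := by
    intro i j
    have h1 := he (i, j)
    simp only at h1
    rw [Sym2.eq_iff] at h1
    rcases h1 with ⟨h1, h2⟩ | ⟨h1, h2⟩
    · refine ⟨S.l (e (i, j)), ?_, fun w hw => hw⟩
      rw [← h1, ← h2]; exact S.link _
    · refine ⟨(S.l (e (i, j))).reverse, ?_, fun w hw => List.mem_reverse.1 hw⟩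
      rw [← h1, ← h2]; exact (S.link _).symm
  choose L hL hL' using hlink
  have hLd : ∀ i j i' j', (i, j) ≠ (i', j') → (L i j).Disjoint (L i' j') := by
    intro i j i' j' hne w hw hw'
    exact S.disj _ _ (fun h => hne (e.injective h)) (hL' _ _ w hw) (hL' _ _ w hw')
  have hcon : ∀ i : Fin k, ∃ l : List (V ⊕ Sym2 V),
      (h i 0 :: l ++ [h i (Fin.last n)]).IsChain (Sub G).Adj ∧
      (h i 0 :: l ++ [h i (Fin.last n)]).Nodup ∧
      (∀ j : Fin (n + 1), h i j ∈ (h i 0 :: l ++ [h i (Fin.last n)])) ∧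
      (∀ w ∈ l, (∃ j : Fin (n + 1), w = h i j) ∨ ∃ j : Fin n, w ∈ L i j) := by
    intro i
    obtain ⟨l, h1, h2, h3, h4⟩ := concat (h i) (hinj i) (hmem i) (L i) (hL i)
      (fun j j' hne => hLd i j i j' (fun h => hne (Prod.ext_iff.1 h).2)) n hn (by omega)
    refine ⟨l, h1, h2, fun j => h3 j (by omega), ?_⟩
    intro w hw
    rcases h4 w hw with ⟨j, _, hj⟩ | ⟨j, _, hj⟩
    · exact Or.inl ⟨j, hj⟩
    · exact Or.inr ⟨j, hj⟩
  choose F hF1 hF2 hF3 hF4 using hcon
  have hA : ∀ i j, ∃ a ∈ A, Sum.inl a = h i j := by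
    intro i j
    have := hmem i j
    rw [Finset.mem_map] at this
    exact this
  choose g hgA hg using hA
  have hw : ∀ i : Fin k, ∃ p : G.Walk (g i 0) (g i (Fin.last n)), p.IsPath ∧
      (∀ v, v ∈ p.support ↔ Sum.inl v ∈ (h i 0 :: F i ++ [h i (Fin.last n)])) ∧
      ∀ e ∈ p.edges, Sum.inr e ∈ F i := by
    intro i
    have h1 := hF1 i
    have h2 := hF2 i
    rw [← hg i 0, ← hg i (Fin.last n)] at h1 h2 ⊢
    exact toWalk G _ (F i) le_rfl _ _ h1 h2
  choose P hP1 hP2 hP3 using hw
  refine ⟨fun i => g i 0, fun i => g i (Fin.last n), P, ?_, ?_⟩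
  · intro i
    refine ⟨hP1 i, ?_⟩
    intro x hx
    rw [hP2]
    obtain ⟨j, hj⟩ := hsur i (Sum.inl x) (Finset.mem_map.2 ⟨x, hx, rfl⟩)
    rw [← hj]
    exact hF3 i j
  · intro i j hij
    have hinA : ∀ (i : Fin k) (v : V), v ∈ (P i).support → v ∉ A → ∃ j : Fin n, Sum.inl v ∈ L i j := by
      intro i v hv hvA
      have hhA : ∀ j, Sum.inl v ≠ h i j := by
        intro j hj
        rw [← hg i j] at hj
        exact hvA ((Sum.inl_injective hj) ▸ hgA i j)
      rw [hP2, List.mem_append, List.mem_cons, List.mem_singleton] at hv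
      rcases hv with (hv | hv) | hv
      · exact absurd hv (hhA _)
      · rcases hF4 i _ hv with ⟨j, hj⟩ | h
        · exact absurd hj (hhA j)
        · exact h
      · exact absurd hv (hhA _)
    refine ⟨?_, ?_⟩
    · intro x hx hx'
      by_contra hxA
      obtain ⟨j1, h1⟩ := hinA i x hx hxA
      obtain ⟨j2, h2⟩ := hinA j x hx' hxA
      exact hLd i j1 j j2 (fun h => hij (Prod.ext_iff.1 h).1) h1 h2
    · intro f hf hf'
      have hinE : ∀ (i : Fin k), Sum.inr f ∈ F i → ∃ j : Fin n, Sum.inr f ∈ L i j := by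
        intro i hv
        rcases hF4 i _ hv with ⟨j, hj⟩ | h
        · rw [← hg i j] at hj; cases hj
        · exact h
      obtain ⟨j1, h1⟩ := hinE i (hP3 i f hf)
      obtain ⟨j2, h2⟩ := hinE j (hP3 j f hf')
      exact hLd i j1 j j2 (fun h => hij (Prod.ext_iff.1 h).1) h1 h2

end Pool.Agent.Hag
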